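import Pool.Agent.Lib.MP_03ba20_al.W.Defs

namespace Pool.Agent.Lib.MP_03ba20_al.W

open Subgroup MulAction

theorem Val.tri {L : Type*} [Lattice L] {ν : L → ℝ} (hν : Val ν) (a b c : L) :
    (ν a - ν (a ⊓ c)) + (ν b - ν (b ⊓ (a ⊔ c))) ≤ (ν a - ν (a ⊓ b)) + (ν b - ν (b ⊓ c)) := by
  have h1 := hν.add (a ⊓ b) (b ⊓ c)
  have h2 : ν ((a ⊓ b) ⊔ (b ⊓ c)) ≤ ν (b ⊓ (a ⊔ c)) := hν.mono
    (sup_le (le_inf inf_le_right (inf_le_left.trans le_sup_left))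
      (inf_le_inf_left b le_sup_right))
  have h3 : ν ((a ⊓ b) ⊓ (b ⊓ c)) ≤ ν (a ⊓ c) := hν.mono (inf_le_inf inf_le_left inf_le_right)
  linarith

theorem Val.rel_mono {L : Type*} [Lattice L] {ν : L → ℝ} (hν : Val ν) {x x' : L} (h : x ≤ x')
    (p : L) : ν x - ν (x ⊓ p) ≤ ν x' - ν (x' ⊓ p) := by
  have h1 := hν.add x p
  have h2 := hν.add x' p
  have h3 : ν (x ⊔ p) ≤ ν (x' ⊔ p) := hν.mono (sup_le_sup_right h p)
  linarith

namespace Spoil

theorem rel_inf {L : Type*} [Lattice L] {ν : L → ℝ} (hν : Val ν) (x p q : L) :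
    ν x - ν (x ⊓ (p ⊓ q)) ≤ (ν x - ν (x ⊓ p)) + (ν x - ν (x ⊓ q)) := by
  have h1 := hν.add (x ⊓ p) (x ⊓ q)
  have h2 : ν ((x ⊓ p) ⊔ (x ⊓ q)) ≤ ν x := hν.mono (sup_le inf_le_left inf_le_left)
  have h3 : ν ((x ⊓ p) ⊓ (x ⊓ q)) ≤ ν (x ⊓ (p ⊓ q)) := hν.mono
    (le_inf (inf_le_left.trans inf_le_left) (inf_le_inf inf_le_right inf_le_right))
  linarith

theorem rel_inf' {L ι : Type*} [Lattice L] {ν : L → ℝ} (hν : Val ν) (x : L) (g : ι → L)
    (s : Finset ι) (hs : s.Nonempty) :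
    ν x - ν (x ⊓ s.inf' hs g) ≤ ∑ k ∈ s, (ν x - ν (x ⊓ g k)) := by
  induction hs using Finset.Nonempty.cons_induction with
  | singleton a => simp
  | cons a s ha hs ih =>
    rw [Finset.inf'_cons hs, Finset.sum_cons]
    linarith [rel_inf hν x (g a) (s.inf' hs g)]

theorem tele (r : ℤ → ℝ) (j : ℤ) (n : ℕ) :
    ∑ t ∈ Finset.range n, (r (j - t) - r (j - t - 5)) =
      (r j + r (j - 1) + r (j - 2) + r (j - 3) + r (j - 4)) -
        (r (j - n) + r (j - n - 1) + r (j - n - 2) + r (j - n - 3) + r (j - n - 4)) := by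
  induction n with
  | zero => simp
  | succ n ih =>
    rw [Finset.sum_range_succ, ih]
    push_cast
    rw [show j - ((n : ℤ) + 1) - 1 = j - n - 2 by ring, show j - ((n : ℤ) + 1) - 2 = j - n - 3 by ring,
      show j - ((n : ℤ) + 1) - 3 = j - n - 4 by ring, show j - ((n : ℤ) + 1) - 4 = j - n - 5 by ring,
      show j - ((n : ℤ) + 1) = j - n - 1 by ring]
    ring

theorem count (r : ℤ → ℝ) (hr : Monotone r) (h0 : ∀ i, 0 ≤ r i) (j : ℤ) (K : ℕ) (J : Finset ℤ)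
    (hJ : ∀ i ∈ J, i ≤ j ∧ j ≤ i + K ∧ r (i - 5) + 1 ≤ r i) : (J.card : ℝ) ≤ 5 * r j := by
  have h1 : (J.card : ℝ) ≤ ∑ i ∈ J, (r i - r (i - 5)) := by
    rw [Finset.card_eq_sum_ones]
    push_cast
    exact Finset.sum_le_sum fun i hi => by linarith [(hJ i hi).2.2]
  have h2 : J ⊆ (Finset.range (K + 1)).image fun t : ℕ => j - t := fun i hi => by
    obtain ⟨a, b, -⟩ := hJ i hi
    exact Finset.mem_image.2 ⟨(j - i).toNat, Finset.mem_range.2 (by omega), by omega⟩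
  have h3 := Finset.sum_le_sum_of_subset_of_nonneg (f := fun i => r i - r (i - 5)) h2
    fun i _ _ => sub_nonneg.2 (hr (by omega))
  rw [Finset.sum_image (fun a _ b _ h => by simpa using h), tele] at h3
  have a1 := hr (show j - 1 ≤ j by omega)
  have a2 := hr (show j - 2 ≤ j by omega)
  have a3 := hr (show j - 3 ≤ j by omega)
  have a4 := hr (show j - 4 ≤ j by omega)
  linarith [h0 (j - (K + 1 : ℕ)), h0 (j - (K + 1 : ℕ) - 1), h0 (j - (K + 1 : ℕ) - 2),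
    h0 (j - (K + 1 : ℕ) - 3), h0 (j - (K + 1 : ℕ) - 4)]

end Spoil

theorem Val.rel_PP {L : Type*} [Lattice L] {ν : L → ℝ} (hν : Val ν) (x : L) (A C : ℤ → L)
    (m n t : ℕ) (j : ℤ) : ν x - ν (x ⊓ PP A C m n t j) ≤
      ∑ k ∈ Finset.Icc (-(m : ℤ)) m,
        (ν x - ν (x ⊓ (A (j - k * t) ⊔ C (j + k * ((n : ℤ) - t))))) :=
  Spoil.rel_inf' hν x _ _ _

open Classical in
theorem SP {L : Type*} [Lattice L] {ν : L → ℝ} (hν : Val ν) (f P : ℤ → L) (hf : Monotone f)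
    (hP : Monotone P) (K : ℕ) (J I : Finset ℤ)
    (hJ : ∀ i ∈ J, ¬ f i ≤ f (i - 5) ⊔ P (i + K)) (hI : ∀ i ∈ J, ∀ j, i ≤ j → j ≤ i + K → j ∈ I) :
    (J.card : ℝ) * K ≤ 5 * ∑ j ∈ I, (ν (f j) - ν (f j ⊓ P j)) := by
  have h1 : ∀ j : ℤ, ((J.filter fun i => i ≤ j ∧ j ≤ i + K).card : ℝ) ≤
      5 * (ν (f j) - ν (f j ⊓ P j)) := fun j => by
    refine Spoil.count (fun i => ν (f i) - ν (f i ⊓ P j)) (fun a b h => hν.rel_mono (hf h) _)
      (fun i => sub_nonneg.2 (hν.mono inf_le_left)) j K _ fun i hi => ?_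
    obtain ⟨hi, a, b⟩ := Finset.mem_filter.1 hi
    refine ⟨a, b, ?_⟩
    have h2 : f (i - 5) ⊔ P j < f i ⊔ P j :=
      lt_of_le_of_ne (sup_le_sup_right (hf (by omega)) _) fun e => hJ i hi
        ((le_sup_left.trans e.ge).trans (sup_le_sup_left (hP b) _))
    linarith [hν.gap _ _ h2, hν.add (f (i - 5)) (P j), hν.add (f i) (P j)]
  have h2 : J.card * K ≤ ∑ j ∈ I, (J.filter fun i => i ≤ j ∧ j ≤ i + K).card := by
    simp only [Finset.card_filter]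
    rw [Finset.sum_comm, ← smul_eq_mul, ← Finset.sum_const]
    refine Finset.sum_le_sum fun i hi => ?_
    rw [← Finset.card_filter]
    have h3 : Finset.Icc i (i + K) ⊆ I.filter fun j => i ≤ j ∧ j ≤ i + K := fun j hj => by
      obtain ⟨a, b⟩ := Finset.mem_Icc.1 hj
      exact Finset.mem_filter.2 ⟨hI i hi j a b, a, b⟩
    have h4 := Finset.card_le_card h3
    rw [Int.card_Icc] at h4
    omega
  rw [Finset.mul_sum]
  refine le_trans ?_ (Finset.sum_le_sum fun j _ => h1 j)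
  exact_mod_cast h2

end Pool.Agent.Lib.MP_03ba20_al.W
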