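import Pool.Agent.Lib.MP_03ba20_al.W.Scale
import Pool.Agent.Lib.MP_03ba20_al.W.Spoil

namespace Pool.Agent.Lib.MP_03ba20_al.W

open Subgroup MulAction

namespace CD

theorem tel (φ : ℤ → ℝ) {Θ : ℝ} (hφ : ∀ i j, φ i - φ j ≤ Θ) (c : ℤ) (N D : ℕ) :
    ∑ i ∈ Finset.range N, (φ (c + i) - φ (c + i - D)) ≤ D * Θ := by
  have h1 := Finset.sum_range_add (fun i : ℕ => φ (c - D + i)) D N
  have h2 := Finset.sum_range_add (fun i : ℕ => φ (c - D + i)) N D
  rw [add_comm N D, h1] at h2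
  have h3 : ∑ i ∈ Finset.range D, (φ (c - D + (N + i : ℕ)) - φ (c - D + i)) ≤ D * Θ := by
    refine (Finset.sum_le_card_nsmul _ _ Θ fun i _ => hφ _ _).trans ?_
    simp
  have h4 : ∑ i ∈ Finset.range N, (φ (c + i) - φ (c + i - D)) =
      ∑ i ∈ Finset.range N, (φ (c - D + (D + i : ℕ)) - φ (c - D + i)) :=
    Finset.sum_congr rfl fun i _ => by
      congr 2
      · push_cast; ring
      · ring
  rw [h4]
  rw [Finset.sum_sub_distrib] at h3 ⊢
  linarith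

theorem shift (h : ℤ → ℝ) (h0 : ∀ j, 0 ≤ h j) (I : Finset ℤ) (c : ℤ) (N : ℕ)
    (hI : ∀ j ∈ I, c ≤ j ∧ j < c + N) : ∑ j ∈ I, h j ≤ ∑ i ∈ Finset.range N, h (c + i) := by
  have h2 : I ⊆ (Finset.range N).image fun t : ℕ => c + t := fun i hi => by
    obtain ⟨a, b⟩ := hI i hi
    exact Finset.mem_image.2 ⟨(i - c).toNat, Finset.mem_range.2 (by omega), by omega⟩
  have h3 := Finset.sum_le_sum_of_subset_of_nonneg (f := h) h2 fun i _ _ => h0 i
  rwa [Finset.sum_image (fun a _ b _ h => by simpa using h)] at h3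

variable {L : Type*} [Lattice L]

theorem lip {F : ℕ → ℤ → L} (h2 : ∀ s i, F (s + 1) i ≤ F s (i + 1)) (s p : ℕ) (i : ℤ) :
    F (s + p) i ≤ F s (i + p) := by
  induction p generalizing i with
  | zero => simp
  | succ p ih =>
    refine (h2 (s + p) i).trans ((ih _).trans_eq ?_)
    congr 1; push_cast; ring

theorem lip' {F : ℕ → ℤ → L} (h1 : ∀ s i, F s i ≤ F (s + 1) (i + 1)) (s p : ℕ) (i : ℤ) :
    F s i ≤ F (s + p) (i + p) := by
  induction p with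
  | zero => simp
  | succ p ih =>
    refine ih.trans ((h1 _ _).trans_eq ?_)
    congr 1; push_cast; ring

theorem PP_mono {A C : ℤ → L} (hA : Monotone A) (hC : Monotone C) (m n t : ℕ) :
    Monotone (PP A C m n t) := fun _ _ h =>
  Finset.le_inf' _ _ fun _ hk => (Finset.inf'_le _ hk).trans
    (sup_le_sup (hA (by omega)) (hC (by omega)))

/-- the potential on grid positions. -/
noncomputable def Psi (ν : L → ℝ) (F : ℕ → ℤ → L) (m N : ℕ) (c : ℤ) (a b : ℕ) : ℝ :=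
  ∑ k ∈ Finset.Icc (-(m : ℤ)) m, ∑ i ∈ Finset.range N,
    (ν (F (m * a) (c + k * a + i)) -
      ν (F (m * a) (c + k * a + i) ⊓ F (m * b) (c + k * b + i)))

variable {ν : L → ℝ} {F : ℕ → ℤ → L}

theorem Psi_nonneg (hν : Val ν) (m N : ℕ) (c : ℤ) (a b : ℕ) : 0 ≤ Psi ν F m N c a b :=
  Finset.sum_nonneg fun _ _ => Finset.sum_nonneg fun _ _ => sub_nonneg.2 (hν.mono inf_le_left)

theorem Psi_self (m N : ℕ) (c : ℤ) (a : ℕ) : Psi ν F m N c a a = 0 := by simp [Psi]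

theorem Psi_tri (hν : Val ν) (m N : ℕ) (c : ℤ) (a b e : ℕ) :
    Psi ν F m N c a e + ∑ k ∈ Finset.Icc (-(m : ℤ)) m, ∑ i ∈ Finset.range N,
      (ν (F (m * b) (c + k * b + i)) - ν (F (m * b) (c + k * b + i) ⊓
        (F (m * a) (c + k * a + i) ⊔ F (m * e) (c + k * e + i)))) ≤
      Psi ν F m N c a b + Psi ν F m N c b e := by
  simp only [Psi, ← Finset.sum_add_distrib]
  exact Finset.sum_le_sum fun _ _ => Finset.sum_le_sum fun _ _ => hν.tri _ _ _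

theorem Psi_sub (hν : Val ν) (m N : ℕ) (c : ℤ) (a b e : ℕ) :
    Psi ν F m N c a e ≤ Psi ν F m N c a b + Psi ν F m N c b e :=
  (le_add_of_nonneg_right (Finset.sum_nonneg fun _ _ => Finset.sum_nonneg fun _ _ =>
    sub_nonneg.2 (hν.mono inf_le_left))).trans (Psi_tri hν m N c a b e)

theorem Psi_le (hν : Val ν) {Θ : ℝ} (hΘ0 : 0 < Θ) (hΘ : ∀ x y, ν x - ν y ≤ Θ)
    (hF : ∀ s, Monotone (F s)) (h1 : ∀ s i, F s i ≤ F (s + 1) (i + 1)) {m : ℕ} (hm : 1 ≤ m)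
    (N : ℕ) (c : ℤ) (a l : ℕ) : Psi ν F m N c a (a + l) ≤ 6 * m ^ 2 * Θ * l := by
  have h3 : ∀ k ∈ Finset.Icc (-(m : ℤ)) m, ∑ i ∈ Finset.range N,
      (ν (F (m * a) (c + k * a + i)) -
        ν (F (m * a) (c + k * a + i) ⊓ F (m * (a + l)) (c + k * (a + l : ℕ) + i))) ≤
      (2 * (m * l) : ℕ) * Θ := fun k hk => by
    refine le_trans (Finset.sum_le_sum fun i _ => ?_)
      (tel (fun j => ν (F (m * a) j)) (fun _ _ => hΘ _ _) (c + k * a) N (2 * (m * l)))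
    refine sub_le_sub_left (hν.mono (le_inf (hF _ (by omega)) ?_)) _
    rw [mul_add]
    refine (lip' h1 _ (m * l) _).trans (hF _ ?_)
    have h4 : -(m : ℤ) * l ≤ k * l :=
      mul_le_mul_of_nonneg_right (Finset.mem_Icc.1 hk).1 (by positivity)
    push_cast
    linarith
  refine (Finset.sum_le_card_nsmul _ _ _ h3).trans ?_
  have h5 : (Finset.Icc (-(m : ℤ)) m).card = 2 * m + 1 := by rw [Int.card_Icc]; omega
  have h6 : (1 : ℝ) ≤ m := by exact_mod_cast hm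
  rw [h5, nsmul_eq_mul]
  push_cast
  have h7 : 0 ≤ ((m : ℝ) - 1) * (m * l * Θ) := by
    have : 0 ≤ (m : ℝ) - 1 := by linarith
    positivity
  nlinarith

end CD

open Classical in
theorem CD {L : Type*} [Lattice L] {ν : L → ℝ} (hν : Val ν) {Θ : ℝ} (hΘ0 : 0 < Θ)
    (hΘ : ∀ x y, ν x - ν y ≤ Θ) (F : ℕ → ℤ → L) (hF : ∀ s, Monotone (F s))
    (h1 : ∀ s i, F s i ≤ F (s + 1) (i + 1)) (h2 : ∀ s i, F (s + 1) i ≤ F s (i + 1))
    (ω : ℕ → ℕ → ℝ) (hω : ∀ a b c, ω a c ≤ ω a b + ω b c)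
    (m l R : ℕ) (hm : 1 ≤ m) (hl : 1 ≤ l) (κ ε δ : ℝ) (hκ : 0 ≤ κ) (hε : 0 < ε) (hδ : 0 < δ)
    (hωκ : ∀ a n, ω a (a + n) ≤ κ * n) (hR : 60 * m ^ 2 * κ < ε * δ * R)
    (h0 : ε * (m * (l * m ^ R) : ℕ) ≤ ω 0 (m * (l * m ^ R))) (I : Finset ℤ) :
    ∃ n a : ℕ, l ≤ n ∧ a + m * n ≤ m * (l * m ^ R) ∧ ε / 2 * (m * n : ℕ) ≤ ω a (a + m * n) ∧
      ∀ u, a ≤ u → u ≤ a + m * n → ∃ t ≤ n,
        ((I.filter fun i => ¬ F u i ≤
          F u (i - 5) ⊔ PP (F a) (F (a + m * n)) m n t (i + 2 * n)).card : ℝ) ≤ δ * Θ := by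
  obtain ⟨M, hM⟩ : ∃ M : ℕ, ∀ i ∈ I, -(M : ℤ) ≤ i ∧ i ≤ M :=
    ⟨I.sup Int.natAbs, fun i hi => by
      have := Finset.le_sup (f := Int.natAbs) hi
      omega⟩
  have hm' : (0 : ℝ) < m := by exact_mod_cast hm
  obtain ⟨r, a, ha, hb, hc⟩ := SS
    (CD.Psi ν F m (2 * M + 2 * (l * m ^ R) + 2 * (m * (l * m ^ R)) + 1)
      (-(M : ℤ) - (m * (l * m ^ R) : ℕ))) (fun a b => ω (m * a) (m * b))
    (CD.Psi_nonneg hν _ _ _) (CD.Psi_self _ _ _) (CD.Psi_sub hν _ _ _)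
    (fun _ _ _ => hω _ _ _) m l R hm hl (κ * m) (ε * m) (δ * Θ / 5) (6 * m ^ 2 * Θ)
    (by positivity) (by positivity) (by positivity)
    (fun a n => by rw [mul_add]; exact (hωκ _ _).trans_eq (by push_cast; ring))
    (fun a => CD.Psi_le hν hΘ0 hΘ hF h1 hm _ _ a l)
    (by
      have := mul_lt_mul_of_pos_right hR (mul_pos hm' hΘ0)
      linarith)
    (by
      refine le_trans (le_of_eq ?_) (h0.trans_eq (by simp))
      push_cast; ring)
  generalize l * m ^ R = N₀ at *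
  have hq : l ≤ l * m ^ r := Nat.le_mul_of_pos_right _ (by positivity)
  rw [show l * m ^ (r + 1) = m * (l * m ^ r) by ring] at ha hb hc
  generalize l * m ^ r = q at *
  have hqn : q ≤ m * q := Nat.le_mul_of_pos_left _ hm
  have hn : 0 < m * q := by omega
  refine ⟨m * q, m * a, hq.trans hqn, ?_, ?_, fun u hu hu' => ?_⟩
  · rw [← mul_add]; exact Nat.mul_le_mul_left _ ha
  · rw [← mul_add]
    refine le_trans (le_of_eq ?_) hb
    push_cast; ring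
  obtain ⟨v, rfl⟩ := Nat.exists_eq_add_of_le hu
  have he : v / (m * q) ≤ m :=
    Nat.div_le_of_le_mul (by rw [mul_comm (m * q)]; omega)
  have hv := Nat.div_add_mod v (m * q)
  have hv' := Nat.mod_lt v hn
  generalize v / (m * q) = e at *
  generalize v % (m * q) = p at *
  have ht : e * q ≤ m * q := Nat.mul_le_mul_right _ he
  have hu0 : m * a + v = m * (a + e * q) + p := by rw [← hv]; ring
  refine ⟨e * q, ht, ?_⟩
  have hc' := hc e he
  rw [hu0, ← mul_add]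
  generalize e * q = t at *
  generalize m * q = n at *
  have hP := CD.PP_mono (hF (m * a)) (hF (m * (a + n))) m n t
  have k1 := SP hν (F (m * (a + t) + p))
    (fun j => PP (F (m * a)) (F (m * (a + n))) m n t (j + n)) (hF _)
    (fun _ _ h => hP (by omega)) n
    (I.filter fun i => ¬ F (m * (a + t) + p) i ≤
      F (m * (a + t) + p) (i - 5) ⊔ PP (F (m * a)) (F (m * (a + n))) m n t (i + 2 * n))
    (Finset.Icc (-(M : ℤ)) (M + N₀))
    (fun i hi => by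
      rw [show i + n + n = i + 2 * n by ring]
      exact (Finset.mem_filter.1 hi).2)
    (fun i hi j b1 b2 => by
      have := hM i (Finset.mem_filter.1 hi).1
      exact Finset.mem_Icc.2 ⟨by omega, by omega⟩)
  have k2 : ∑ j ∈ Finset.Icc (-(M : ℤ)) (M + N₀), (ν (F (m * (a + t) + p) j) -
      ν (F (m * (a + t) + p) j ⊓ PP (F (m * a)) (F (m * (a + n))) m n t (j + n))) ≤
      ∑ j ∈ Finset.Icc (-(M : ℤ)) (M + N₀), ∑ k ∈ Finset.Icc (-(m : ℤ)) m,
        (ν (F (m * (a + t)) (j + n)) - ν (F (m * (a + t)) (j + n) ⊓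
          (F (m * a) (j + n - k * t) ⊔ F (m * (a + n)) (j + n + k * ((n : ℤ) - t))))) :=
    Finset.sum_le_sum fun j _ =>
      (hν.rel_mono ((CD.lip h2 _ p j).trans (hF _ (by omega))) _).trans (hν.rel_PP _ _ _ _ _ _ _)
  rw [Finset.sum_comm] at k2
  have k3 := CD.Psi_tri (F := F) hν m (2 * M + 2 * N₀ + 2 * (m * N₀) + 1)
    (-(M : ℤ) - (m * N₀ : ℕ)) a (a + t) (a + n)
  have k4 := k2.trans (Finset.sum_le_sum fun k hk => (CD.shift
    (fun j => ν (F (m * (a + t)) (j + n)) - ν (F (m * (a + t)) (j + n) ⊓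
      (F (m * a) (j + n - k * t) ⊔ F (m * (a + n)) (j + n + k * ((n : ℤ) - t)))))
    (fun _ => sub_nonneg.2 (hν.mono inf_le_left)) _
    (-(M : ℤ) - (m * N₀ : ℕ) + k * (a + t : ℕ) - n) (2 * M + 2 * N₀ + 2 * (m * N₀) + 1)
    fun j hj => by
      obtain ⟨b1, b2⟩ := Finset.mem_Icc.1 hj
      obtain ⟨b3, b4⟩ := Finset.mem_Icc.1 hk
      have b5 : ((a + t : ℕ) : ℤ) ≤ N₀ := by omega
      have b6 : (n : ℤ) ≤ N₀ := by omega
      have b7 : (0 : ℤ) ≤ (a + t : ℕ) := by positivity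
      have b8 : k * (a + t : ℕ) ≤ m * (a + t : ℕ) := mul_le_mul_of_nonneg_right b4 b7
      have b9 : -(m : ℤ) * (a + t : ℕ) ≤ k * (a + t : ℕ) := mul_le_mul_of_nonneg_right b3 b7
      have b10 : (m : ℤ) * (a + t : ℕ) ≤ m * N₀ := mul_le_mul_of_nonneg_left b5 (by positivity)
      generalize ((a + t : ℕ) : ℤ) = z at *
      push_cast
      constructor <;> linarith).trans_eq
    (Finset.sum_congr rfl fun i _ =>
      (show _ = ν (F (m * (a + t)) (-(M : ℤ) - (m * N₀ : ℕ) + k * (a + t : ℕ) + i)) -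
        ν (F (m * (a + t)) (-(M : ℤ) - (m * N₀ : ℕ) + k * (a + t : ℕ) + i) ⊓
          (F (m * a) (-(M : ℤ) - (m * N₀ : ℕ) + k * a + i) ⊔
            F (m * (a + n)) (-(M : ℤ) - (m * N₀ : ℕ) + k * (a + n : ℕ) + i))) by
        have e1 : -(M : ℤ) - (m * N₀ : ℕ) + k * (a + t : ℕ) - n + i + n =
          -(M : ℤ) - (m * N₀ : ℕ) + k * (a + t : ℕ) + i := by ring
        have e2 : -(M : ℤ) - (m * N₀ : ℕ) + k * (a + t : ℕ) + i - k * t =
          -(M : ℤ) - (m * N₀ : ℕ) + k * a + i := by push_cast; ring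
        have e3 : -(M : ℤ) - (m * N₀ : ℕ) + k * (a + t : ℕ) + i + k * ((n : ℤ) - t) =
          -(M : ℤ) - (m * N₀ : ℕ) + k * (a + n : ℕ) + i := by push_cast; ring
        simp only [e1, e2, e3])))
  have hn' : (0 : ℝ) < n := by exact_mod_cast hn
  refine le_of_mul_le_mul_right ?_ hn'
  linarith

end Pool.Agent.Lib.MP_03ba20_al.W
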