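import Pool.Agent.Lib.MP_03ba20_al.Tree

namespace Pool.Agent.Lib.MP_03ba20_al.W

open Subgroup MulAction

/-! ### Lattices with a valuation -/

/-- a valuation with gap one on a lattice. -/
structure Val {L : Type*} [Lattice L] (ν : L → ℝ) : Prop where
  add : ∀ x y, ν (x ⊔ y) + ν (x ⊓ y) = ν x + ν y
  gap : ∀ x y, x < y → ν x + 1 ≤ ν y

theorem Val.mono {L : Type*} [Lattice L] {ν : L → ℝ} (h : Val ν) {x y : L} (hxy : x ≤ y) :
    ν x ≤ ν y := by
  rcases hxy.eq_or_lt with rfl | hlt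
  · exact le_rfl
  · linarith [h.gap x y hlt]

theorem Val.modular {L : Type*} [Lattice L] {ν : L → ℝ} (h : Val ν) {x z : L} (y : L)
    (hxz : x ≤ z) : (x ⊔ y) ⊓ z ≤ x ⊔ y ⊓ z := by
  have h0 : x ⊔ y ⊓ z ≤ (x ⊔ y) ⊓ z :=
    sup_le (le_inf le_sup_left hxz) (inf_le_inf_right z le_sup_right)
  rcases h0.eq_or_lt with e | hlt
  · exact e.ge
  exfalso
  have h1 := h.gap _ _ hlt
  have h2 := h.add x (y ⊓ z)
  have h3 := h.add (x ⊔ y) z
  have h4 := h.add x y
  have h5 := h.add y z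
  rw [show x ⊓ (y ⊓ z) = x ⊓ y by
    rw [inf_comm y z, ← inf_assoc, inf_eq_left.2 hxz]] at h2
  rw [show x ⊔ y ⊔ z = y ⊔ z by
    rw [sup_comm x y, sup_assoc, sup_eq_right.2 hxz]] at h3
  linarith

/-- the meet over the slopes `|k| ≤ m` of `A (j - k t) ⊔ C (j + k (n - t))`. -/
noncomputable def PP {L : Type*} [Lattice L] (A C : ℤ → L) (m n t : ℕ) (j : ℤ) : L :=
  (Finset.Icc (-(m : ℤ)) m).inf' ⟨0, by simp⟩ fun k => A (j - k * t) ⊔ C (j + k * ((n : ℤ) - t))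

/-- a relation closed downwards and under joins in each argument. -/
structure Idl {L₁ L₂ : Type*} [Lattice L₁] [Lattice L₂] (r : L₁ → L₂ → Prop) : Prop where
  mono : ∀ {x x' y y'}, x ≤ x' → y ≤ y' → r x' y' → r x y
  supl : ∀ {x x' y}, r x y → r x' y → r (x ⊔ x') y
  supr : ∀ {x y y'}, r x y → r x y' → r x (y ⊔ y')

/-! ### The groups -/

variable {G V : Type*} [Group G] [MulAction G V] {Γ : SimpleGraph V}

/-- the graph is regular of finite valency `d ≥ 2`. -/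
structure Deg (Γ : SimpleGraph V) (d : ℕ) : Prop where
  two : 2 ≤ d
  card : ∀ v, (Γ.neighborSet v).ncard = d

theorem Deg.fin {d : ℕ} (h : Deg Γ d) (v : V) : (Γ.neighborSet v).Finite :=
  Set.finite_of_ncard_ne_zero (by rw [h.card]; have := h.two; omega)

theorem Deg.exists_adj {d : ℕ} (h : Deg Γ d) (v : V) : ∃ u, Γ.Adj v u :=
  Set.nonempty_of_ncard_ne_zero (s := Γ.neighborSet v) (by rw [h.card]; have := h.two; omega)

/-- the constant. -/
def kap (d : ℕ) : ℝ := 7 * ((d : ℝ) + 1) ^ 5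

theorem one_le_kap (d : ℕ) : 1 ≤ kap d := by
  have : (1 : ℝ) ≤ ((d : ℝ) + 1) ^ 5 := one_le_pow₀ (by simp)
  unfold kap; linarith

variable (G Γ) in
/-- pointwise stabiliser of the ball of radius `i` (everything for negative `i`). -/
def BZ (i : ℤ) (v : V) : Subgroup G where
  carrier := {g | ∀ (n : ℕ) (w : V), (n : ℤ) ≤ i → Nr Γ n v w → g • w = w}
  one_mem' := by simp
  mul_mem' := fun ha hb n w hn hw => by rw [mul_smul, hb n w hn hw, ha n w hn hw]
  inv_mem' := fun ha n w hn hw => inv_fix (ha n w hn hw)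

variable (G Γ) in
/-- the centre of the pointwise stabiliser of the ball of radius two. -/
def Z0 (v : V) : Subgroup G := BZ G Γ 2 v ⊓ centralizer (BZ G Γ 2 v : Set G)

variable (G Γ) in
/-- the group generated by the `Z0 u` with `u` within distance `i` of `v`. -/
def VZ (i : ℤ) (v : V) : Subgroup G :=
  closure {z | ∃ (n : ℕ) (u : V), (n : ℤ) ≤ i ∧ Nr Γ n v u ∧ z ∈ Z0 G Γ u}

/-- the conjugates of `a` under the stabiliser of `v`. -/
def cjs (v : V) (a : G) : Set G := {x | ∃ g : G, g • v = v ∧ g * a * g⁻¹ = x}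

variable (G) in
/-- the group generated by the elements of `G_v` with at most `2 ^ γ` conjugates under `G_v`. -/
def WW (γ : ℝ) (v : V) : Subgroup G :=
  closure {a | a • v = v ∧ Real.logb 2 ((cjs v a).ncard : ℝ) ≤ γ}

/-- binary logarithm of the order. -/
noncomputable def lg (X : Subgroup G) : ℝ := Real.logb 2 (Nat.card X : ℝ)

variable (G) in
/-- binary logarithm of the length of the orbit of `w` under the stabiliser of `x`. -/
noncomputable def om (x w : V) : ℝ :=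
  Real.logb 2 (({y | ∃ g : G, g • x = x ∧ g • w = y} : Set V).ncard : ℝ)

variable (G Γ) in
/-- `b` is the critical distance. -/
structure Crit (b : ℕ) : Prop where
  le : ∀ v, Z0 G Γ v ≤ BZ G Γ b v
  nle : ∀ v, ¬ Z0 G Γ v ≤ BZ G Γ (b + 1) v

/-- `T` is abelian, normalised by `N`, and `N` acts quadratically on it. -/
structure Prg (T N : Subgroup G) : Prop where
  ab : T ≤ centralizer (T : Set G)
  nrm : N ≤ normalizer (T : Set G)
  cen : ⁅T, N⁆ ≤ centralizer (N : Set G)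

theorem lg_nonneg (X : Subgroup G) : 0 ≤ lg X := by
  unfold lg
  rcases Nat.eq_zero_or_pos (Nat.card X) with h | h
  · simp [h]
  · exact Real.logb_nonneg (by norm_num) (by exact_mod_cast h)

theorem fin_of_le {X Y : Subgroup G} (h : X ≤ Y) [Finite Y] : Finite X :=
  Finite.of_injective _ (inclusion_injective h)

theorem lg_mono {X Y : Subgroup G} [Finite Y] (h : X ≤ Y) : lg X ≤ lg Y := by
  have := fin_of_le h
  exact Real.logb_le_logb_of_le (by norm_num) (by exact_mod_cast Nat.card_pos)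
    (by exact_mod_cast Nat.card_le_card_of_injective _ (inclusion_injective h))

theorem lg_gap {X Y : Subgroup G} [Finite Y] (h : X < Y) : lg X + 1 ≤ lg Y := by
  have := fin_of_le h.le
  have h1 : Nat.card X ∣ Nat.card Y := card_dvd_of_le h.le
  have h2 : Nat.card X ≠ Nat.card Y := fun e => h.ne (eq_of_le_of_card_ge h.le e.ge)
  obtain ⟨k, hk⟩ := h1
  have h3 : 0 < Nat.card Y := Nat.card_pos
  have h4 : 0 < Nat.card X := Nat.card_pos
  have h5 : 2 ≤ k := by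
    rcases k with _ | _ | k
    · omega
    · omega
    · omega
  have h6 : (Nat.card X : ℝ) * 2 ≤ Nat.card Y := by
    exact_mod_cast hk ▸ Nat.mul_le_mul_left _ h5
  have h7 := Real.logb_le_logb_of_le (b := 2) (by norm_num) (by positivity) h6
  rw [Real.logb_mul (by positivity) (by norm_num), Real.logb_self_eq_one (by norm_num)] at h7
  exact h7

theorem lg_cj (g : G) (X : Subgroup G) : lg (cj g X) = lg X := by
  unfold lg
  congr 2
  exact Nat.card_congr ⟨fun x => ⟨g⁻¹ * x * g, mem_cj.1 x.2⟩,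
    fun x => ⟨g * x * g⁻¹, mem_cj.2 (by simp [mul_assoc])⟩,
    fun x => Subtype.ext (by simp [mul_assoc]), fun x => Subtype.ext (by simp [mul_assoc])⟩

theorem lg_eqv {F : V → Subgroup G} (h : Eqv F) (S : Setup G Γ) (v w : V) :
    lg (F v) = lg (F w) := by
  obtain ⟨g, rfl⟩ := S.trans v w
  rw [← h.cj_eq, lg_cj]

theorem BZ_anti {i j : ℤ} (h : i ≤ j) (v : V) : BZ G Γ j v ≤ BZ G Γ i v :=
  fun _ hg n w hn hw => hg n w (hn.trans h) hw

theorem BZ_lip {n : ℕ} {v u : V} (h : Nr Γ n v u) {i j : ℤ} (hij : j + n ≤ i) :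
    BZ G Γ i v ≤ BZ G Γ j u :=
  fun _ hg k w hk hw => hg (n + k) w (by push_cast; omega) (h.trans hw)

theorem BZ_fix {i : ℤ} {n : ℕ} {v u : V} {g : G} (hg : g ∈ BZ G Γ i v) (h : Nr Γ n v u)
    (hn : (n : ℤ) ≤ i) : g • u = u := hg n u hn h

theorem BZ_fix0 {i : ℤ} {v : V} {g : G} (hg : g ∈ BZ G Γ i v) (hi : 0 ≤ i) : g • v = v :=
  hg 0 v (by simpa using hi) (.refl _ _)

theorem mem_BZ_nat {n : ℕ} {v : V} {g : G} :
    g ∈ BZ G Γ n v ↔ ∀ w, Nr Γ n v w → g • w = w :=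
  ⟨fun hg w hw => hg n w le_rfl hw, fun hg _ w hk hw => hg w (hw.mono (by exact_mod_cast hk))⟩

theorem mem_BZ_zero {v : V} {g : G} : g ∈ BZ G Γ 0 v ↔ g • v = v :=
  ⟨fun hg => BZ_fix0 hg le_rfl, fun hg => (mem_BZ_nat (n := 0)).2 fun w hw => by cases hw; exact hg⟩

theorem BZ_one (v : V) : BZ G Γ 1 v = KK G Γ v := by
  ext g
  refine (mem_BZ_nat (n := 1)).trans ⟨fun h => ⟨h v (.refl _ _), fun u hu =>
    h u ((Nr.refl 0 v).step hu)⟩, fun h w hw => ?_⟩
  rcases nr_one hw with rfl | h'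
  · exact h.1
  · exact h.2 w h'

theorem eqvBZ (S : Setup G Γ) (i : ℤ) : Eqv (BZ G Γ i) := fun g v x hx n w hn hw => by
  have := hx n (g⁻¹ • w) hn (by simpa using S.nr_smul g⁻¹ hw)
  simp [mul_smul, this]

theorem fin_of_fix (S : Setup G Γ) {X : Subgroup G} {v : V} (h : ∀ x ∈ X, x • v = v) :
    Finite X :=
  have := S.fin v
  fin_of_le (show X ≤ stabilizer G v from h)

theorem finBZ (S : Setup G Γ) {i : ℤ} (hi : 0 ≤ i) (v : V) : Finite (BZ G Γ i v) :=
  fin_of_fix S fun _ hx => BZ_fix0 hx hi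

theorem eqvZ0 (S : Setup G Γ) : Eqv (Z0 G Γ) := fun g v x hx =>
  ⟨eqvBZ S 2 g v x hx.1, fun y hy => by
    have h1 : g⁻¹ * y * g ∈ BZ G Γ 2 v := by simpa using eqvBZ S 2 g⁻¹ _ y hy
    have h2 := hx.2 _ h1
    calc y * (g * x * g⁻¹) = g * (g⁻¹ * y * g * x) * g⁻¹ := by group
      _ = _ := by rw [h2]; group⟩

theorem eqv_closure {s : V → Set G} (h : ∀ (g : G) v x, x ∈ s v → g * x * g⁻¹ ∈ s (g • v)) :
    Eqv fun v => closure (s v) := fun g v x hx => by
  have : closure (s v) ≤ cj g⁻¹ (closure (s (g • v))) :=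
    (closure_le _).2 fun y hy => mem_cj.2 (by simpa using subset_closure (h g v y hy))
  simpa using mem_cj.1 (this hx)

theorem eqvVZ (S : Setup G Γ) (i : ℤ) : Eqv (VZ G Γ i) :=
  eqv_closure fun g _ x ⟨n, u, hn, hu, hx⟩ => ⟨n, g • u, hn, S.nr_smul g hu, eqvZ0 S g u x hx⟩

theorem ncard_cjs_conj (g a : G) (v : V) :
    (cjs (g • v) (g * a * g⁻¹)).ncard = (cjs v a).ncard := by
  have : cjs (g • v) (g * a * g⁻¹) = (MulAut.conj g) '' cjs v a := by
    ext x
    constructor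
    · rintro ⟨h, h1, rfl⟩
      exact ⟨_, ⟨g⁻¹ * h * g, by rw [mul_smul, mul_smul, h1, inv_smul_smul], rfl⟩, by
        simp [mul_assoc]⟩
    · rintro ⟨_, ⟨h, h1, rfl⟩, rfl⟩
      exact ⟨g * h * g⁻¹, by rw [conj_smul, h1], by simp [mul_assoc]⟩
  rw [this, Set.ncard_image_of_injective _ (MulAut.conj g).injective]

theorem eqvWW (γ : ℝ) : Eqv (V := V) (WW G γ) :=
  eqv_closure fun g v x hx => ⟨by rw [conj_smul, hx.1], by rw [ncard_cjs_conj]; exact hx.2⟩

theorem WW_fix {γ : ℝ} {v : V} {g : G} (hg : g ∈ WW G γ v) : g • v = v :=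
  (show WW G γ v ≤ stabilizer G v from (closure_le _).2 fun _ h => h.1) hg

theorem finWW (S : Setup G Γ) (γ : ℝ) (v : V) : Finite (WW G γ v) :=
  fin_of_fix S fun _ => WW_fix

theorem eqv_comm {A B : V → Subgroup G} (hA : Eqv A) (hB : Eqv B) : Eqv fun v => ⁅A v, B v⁆ :=
  fun g v x hx => by
    have : ⁅A v, B v⁆ ≤ cj g⁻¹ ⁅A (g • v), B (g • v)⁆ := commutator_le.2 fun a ha b hb =>
      mem_cj.2 (by
        have := commutator_mem_commutator (hA g v a ha) (hB g v b hb)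
        rw [commutatorElement_def] at this ⊢
        convert this using 1; group)
    simpa using mem_cj.1 (this hx)

theorem Z0_le_VZ {n : ℕ} {v u : V} (h : Nr Γ n v u) {i : ℤ} (hn : (n : ℤ) ≤ i) :
    Z0 G Γ u ≤ VZ G Γ i v := fun _ hz => subset_closure ⟨n, u, hn, h, hz⟩

theorem VZ_le {i : ℤ} {v : V} {X : Subgroup G}
    (h : ∀ (n : ℕ) (u : V), (n : ℤ) ≤ i → Nr Γ n v u → Z0 G Γ u ≤ X) : VZ G Γ i v ≤ X :=
  (closure_le _).2 fun _ ⟨n, u, hn, hu, hz⟩ => h n u hn hu hz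

theorem VZ_lip {n : ℕ} {v u : V} (h : Nr Γ n v u) {i j : ℤ} (hij : i + n ≤ j) :
    VZ G Γ i u ≤ VZ G Γ j v :=
  VZ_le fun k _ hk hw => Z0_le_VZ (h.trans hw) (by push_cast; omega)

theorem VZ_mono {i j : ℤ} (h : i ≤ j) (v : V) : VZ G Γ i v ≤ VZ G Γ j v :=
  VZ_lip (.refl 0 v) (by simpa using h)

theorem Crit.VZ_le_BZ {b : ℕ} (hb : Crit G Γ b) {i j : ℤ} (h : i + j ≤ b) (v : V) :
    VZ G Γ i v ≤ BZ G Γ j v :=
  VZ_le fun n u hn hu => (hb.le u).trans (BZ_lip hu.symm (by omega))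

theorem Crit.finVZ {b : ℕ} (hb : Crit G Γ b) (S : Setup G Γ) {i : ℤ} (h : i ≤ b) (v : V) :
    Finite (VZ G Γ i v) :=
  have := finBZ S le_rfl v
  fin_of_le (hb.VZ_le_BZ (j := 0) (by simpa using h) v)

theorem BZ_cent {i j : ℤ} (h : i + 2 ≤ j) (v : V) :
    BZ G Γ j v ≤ centralizer (VZ G Γ i v : Set G) := by
  rw [le_centralizer_iff]
  exact VZ_le fun n u hn hu z hz y hy => hz.2 y (BZ_lip hu (by omega) hy)

theorem Crit.VZ_comm {b : ℕ} (hb : Crit G Γ b) {i : ℤ} (h : 2 * i + 2 ≤ b) (v : V) :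
    VZ G Γ i v ≤ centralizer (VZ G Γ i v : Set G) :=
  (hb.VZ_le_BZ (j := i + 2) (by omega) v).trans (BZ_cent le_rfl v)

theorem Crit.Z0_ne {b : ℕ} (hb : Crit G Γ b) (v : V) : Z0 G Γ v ≠ ⊥ :=
  fun e => hb.nle v (e ▸ bot_le)

theorem nr_walk {y : ℕ → V} (hy : ∀ s, Nr Γ 1 (y s) (y (s + 1))) (a n : ℕ) :
    Nr Γ n (y a) (y (a + n)) := by
  induction n with
  | zero => exact .refl _ _
  | succ n ih => exact ih.trans (hy _)

end Pool.Agent.Lib.MP_03ba20_al.W
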