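import Pool.Agent.Lib.MP_03ba20_al.W.Nr

namespace Pool.Agent.Lib.MP_03ba20_al.W

open Subgroup MulAction

variable {G V : Type*} [Group G] [MulAction G V] {Γ : SimpleGraph V}

namespace Faith

theorem nr_adj {u v : V} (h : Γ.Adj v u) : Nr Γ 1 v u := (Nr.refl 0 v).step h

theorem le_transport {A B : V → Subgroup G} (S : Setup G Γ) (hA : Eqv A) (hB : Eqv B) {v : V}
    (h : A v ≤ B v) (u : V) : A u ≤ B u := by
  obtain ⟨g, rfl⟩ := S.trans v u
  rw [← hA.cj_eq, ← hB.cj_eq]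
  exact fun x hx => mem_cj.2 (h (mem_cj.1 hx))

/-- an element centralising a nontrivial equivariant family around `v` fixes the neighbours. -/
theorem cenK (S : Setup G Γ) {A : V → Subgroup G} (hA : Eqv A) (h0 : ∀ u, A u ≠ ⊥)
    (h1 : ∀ u, A u ≤ KK G Γ u) {v : V} {g : G} (hg : g • v = v)
    (hc : ∀ u, Γ.Adj v u → g ∈ centralizer (A u : Set G)) : g ∈ KK G Γ v := by
  refine ⟨hg, fun u hu => ?_⟩
  by_contra e
  refine h0 u ((eq_bot_iff_forall _).2 (S.TL hu (X := A u)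
    (fun x hx => ⟨(h1 u hx).2 v hu.symm, (h1 u hx).1⟩)
    (S.tr_of hu (fun k _ k2 => hA.nrm k2) (centralizer_le_normalizer _ (hc u hu)) hg e)
    fun a b ha hb => (S.loc u a b ha hb).imp fun k hk => ⟨hA.nrm hk.1, hk⟩))

theorem cenV (S : Setup G Γ) {b : ℕ} (hb : Crit G Γ b) (k : ℕ) (v : V) {g : G} (hg : g • v = v)
    (hc : g ∈ centralizer (VZ G Γ k v : Set G)) : g ∈ BZ G Γ k v := by
  induction k generalizing v with
  | zero => exact mem_BZ_zero.2 hg
  | succ k ih =>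
    have h1 : g ∈ KK G Γ v := cenK S (eqvZ0 S) hb.Z0_ne
      (fun u => inf_le_left.trans ((BZ_anti (by norm_num) u).trans (BZ_one u).le)) hg
      fun u hu => centralizer_le (Z0_le_VZ (nr_adj hu) (by push_cast; omega)) hc
    refine mem_BZ_nat.2 fun w hw => ?_
    rw [add_comm] at hw
    obtain ⟨z, z1, z2⟩ := nr_split hw
    rw [← BZ_one] at h1
    exact mem_BZ_nat.1 (ih z (BZ_fix h1 z1 le_rfl)
      (centralizer_le (VZ_lip z1 (by push_cast; omega)) hc)) w z2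

end Faith

open Faith

theorem BZ_strict (S : Setup G Γ) {d : ℕ} (hd : Deg Γ d) {j : ℤ} (hj : 0 ≤ j) (v : V)
    (h : BZ G Γ j v ≠ ⊥) : BZ G Γ (j + 1) v < BZ G Γ j v := by
  refine lt_of_le_not_ge (BZ_anti (by omega) v) fun hle => h ?_
  obtain ⟨u, hu⟩ := hd.exists_adj v
  have h1 := le_transport S (eqvBZ S j) (eqvBZ S (j + 1)) hle u
  exact S.TL2 (eqvBZ S j) hu (le_antisymm (hle.trans (BZ_lip (nr_adj hu) (by simp)))
    (h1.trans (BZ_lip (nr_adj hu.symm) (by simp)))) fun x hx => BZ_fix0 hx hj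

theorem le_lg_BZ (S : Setup G Γ) {d : ℕ} (hd : Deg Γ d) (n : ℕ) (v : V)
    (h : BZ G Γ n v ≠ ⊥) : (n : ℝ) + 1 ≤ lg (BZ G Γ 0 v) := by
  have key : ∀ n : ℕ, BZ G Γ n v ≠ ⊥ → (n : ℝ) + lg (BZ G Γ n v) ≤ lg (BZ G Γ 0 v) := by
    intro n
    induction n with
    | zero => simp
    | succ n ih =>
      intro h
      have h1 : BZ G Γ n v ≠ ⊥ := fun e =>
        h (le_bot_iff.1 (e ▸ BZ_anti (by push_cast; omega) v))
      have := finBZ S (i := n) (by positivity) v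
      have h2 := lg_gap (BZ_strict S hd (by positivity) v h1)
      have h3 := ih h1
      push_cast
      linarith
  have := finBZ S (i := n) (by positivity) v
  have h1 := lg_gap (bot_lt_iff_ne_bot.2 h)
  have h2 := lg_nonneg (⊥ : Subgroup G)
  linarith [key n h]

theorem exists_crit (S : Setup G Γ) {d : ℕ} (hd : Deg Γ d) (v : V) (h : BZ G Γ 2 v ≠ ⊥) :
    ∃ b, Crit G Γ b := by
  classical
  obtain ⟨u, hu⟩ := hd.exists_adj v
  have h1 : BZ G Γ 2 v ≤ KK G Γ u ⊓ KK G Γ v :=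
    le_inf ((BZ_lip (nr_adj hu) (by norm_num)).trans (BZ_one u).le)
      ((BZ_anti (by norm_num) v).trans (BZ_one v).le)
  obtain ⟨p, hp, h2⟩ := S.exists_prime hu.symm fun e => h (le_bot_iff.1 (e ▸ h1))
  have h3 : IsPGroup p (BZ G Γ 2 v) := (Op_pgroup _).to_le (h1.trans (S.E_le hp h2 hu.symm))
  have := Fact.mk hp
  have := finBZ S (i := 2) (by norm_num) v
  have := (nontrivial_iff_ne_bot _).2 h
  obtain ⟨z, hz, z1⟩ := (bot_lt_iff_ne_bot.1 h3.bot_lt_center |> ne_bot_iff_exists_ne_one.1 :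
    ∃ z : center (BZ G Γ 2 v), z ≠ 1).elim fun z h => (⟨z.1, z.2, fun e => h (Subtype.ext e)⟩ :
      ∃ z : BZ G Γ 2 v, z ∈ center (BZ G Γ 2 v) ∧ z ≠ 1)
  have h4 : z.1 ∈ Z0 G Γ v := ⟨z.2, fun y hy =>
    congrArg Subtype.val (mem_center_iff.1 hz ⟨y, hy⟩)⟩
  have ex : ∃ n : ℕ, ¬ Z0 G Γ v ≤ BZ G Γ ((n : ℤ) + 1) v := by
    by_contra hc
    push Not at hc
    refine z1 (Subtype.ext (S.faith _ fun y => ?_))
    obtain ⟨n, hn⟩ := exists_nr S.conn v y
    exact BZ_fix (hc n h4) hn (by omega)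
  refine ⟨Nat.find ex, le_transport S (eqvZ0 S) (eqvBZ S _) (v := v) ?_, fun w hw =>
    Nat.find_spec ex (le_transport S (eqvZ0 S) (eqvBZ S _) hw v)⟩
  rcases e : Nat.find ex with _ | n
  · exact inf_le_left.trans (BZ_anti (by norm_num) v)
  · exact not_not.1 (Nat.find_min ex (m := n) (by omega))

theorem faithZ (S : Setup G Γ) {d : ℕ} (hd : Deg Γ d) {b : ℕ} (hb : Crit G Γ b) (v : V) {j : ℤ}
    (hj : 0 ≤ j) (h : j + 4 ≤ b) {g : G} (hg : g • v = v)
    (hc : g ∈ centralizer ((⁅VZ G Γ (j + 3) v, BZ G Γ j v⁆ : Subgroup G) : Set G)) :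
    g ∈ KK G Γ v := by
  obtain ⟨j, rfl⟩ := Int.eq_ofNat_of_zero_le hj
  refine cenK S (eqv_comm (eqvVZ S ((j + 2 : ℕ) : ℤ)) (eqvBZ S (j + 1))) (fun u e => ?_)
    (fun u => ?_) hg fun u hu => centralizer_le (commutator_mono
      (VZ_lip (nr_adj hu) (by push_cast; omega)) (BZ_lip (nr_adj hu.symm) (by simp))) hc
  · rw [commutator_comm, commutator_eq_bot_iff_le_centralizer] at e
    have h1 : BZ G Γ (j + 1) u ≠ ⊥ := fun e' =>
      hb.Z0_ne u (le_bot_iff.1 (e' ▸ (hb.le u).trans (BZ_anti (by omega) u)))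
    refine (BZ_strict S hd (by omega) u h1).not_ge fun x hx => ?_
    have := cenV S hb (j + 2) u (BZ_fix0 hx (by omega)) (e hx)
    exact BZ_anti (by push_cast; omega) u this
  · rw [← BZ_one]
    refine commutator_le.2 fun x hx y hy => ?_
    have h1 := hb.VZ_le_BZ (j := 1) (by push_cast; omega) u hx
    have h2 := BZ_anti (i := 1) (by omega) u hy
    exact mul_mem (mul_mem (mul_mem h1 h2) (inv_mem h1)) (inv_mem h2)

end Pool.Agent.Lib.MP_03ba20_al.W
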