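import Pool.Agent.Lib.MP_03ba20_al.W.Defs

namespace Pool.Agent.Lib.MP_03ba20_al.W

variable {V : Type*} {Γ : SimpleGraph V}

theorem nr_split {a b : ℕ} {x y : V} (h : Nr Γ (a + b) x y) : ∃ z, Nr Γ a x z ∧ Nr Γ b z y := by
  induction b generalizing y with
  | zero => exact ⟨y, h, .refl _ _⟩
  | succ b ih =>
    rcases Nr.split (n := a + b) h with h' | ⟨c, h', hc⟩
    · obtain ⟨z, h1, h2⟩ := ih h'
      exact ⟨z, h1, h2.succ⟩
    · obtain ⟨z, h1, h2⟩ := ih h'
      exact ⟨z, h1, h2.step hc⟩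

theorem ncard_nr {d : ℕ} (hd : Deg Γ d) (v : V) (n : ℕ) :
    ({w | Nr Γ n v w} : Set V).ncard ≤ (d + 1) ^ n := by
  classical
  induction n with
  | zero =>
    have : ({w | Nr Γ 0 v w} : Set V) ⊆ {v} := fun w hw => by cases hw; rfl
    simpa using Set.ncard_le_ncard this (Set.finite_singleton v)
  | succ n ih =>
    have hf := finite_nr hd.fin v n
    have h1 : ({w | Nr Γ (n + 1) v w} : Set V) ⊆
        ↑(hf.toFinset.biUnion fun c => insert c (hd.fin c).toFinset) := fun w hw => by
      rcases Nr.split hw with h | ⟨c, h, h'⟩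
      · simp only [Finset.coe_biUnion, Set.mem_iUnion]
        exact ⟨w, by simpa using h, by simp⟩
      · simp only [Finset.coe_biUnion, Set.mem_iUnion]
        exact ⟨c, by simpa using h, by simp [h']⟩
    refine (Set.ncard_le_ncard h1 (Finset.finite_toSet _)).trans ?_
    rw [Set.ncard_coe_finset]
    refine (Finset.card_biUnion_le_card_mul _ _ (d + 1) fun c _ => ?_).trans ?_
    · refine (Finset.card_insert_le _ _).trans ?_
      rw [← Set.ncard_eq_toFinset_card _ (hd.fin c), hd.card]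
    · rw [← Set.ncard_eq_toFinset_card _ hf, pow_succ]
      exact Nat.mul_le_mul_right _ ih

theorem logb_succ_le (d : ℕ) : Real.logb 2 ((d : ℝ) + 1) ≤ d := by
  rw [Real.logb_le_iff_le_rpow (by norm_num) (by positivity), Real.rpow_natCast]
  exact_mod_cast Nat.lt_two_pow_self

end Pool.Agent.Lib.MP_03ba20_al.W
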