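import Pool.Agent.Lib.MP_03ba20_al.W.U
import Pool.Agent.Lib.MP_03ba20_al.W.Nr
import Pool.Agent.Lib.MP_03ba20_al.W.Faith

namespace Pool.Agent.Lib.MP_03ba20_al.W

open Subgroup MulAction

variable {G V : Type*} [Group G] [MulAction G V] {Γ : SimpleGraph V}

namespace Facts

/-- an element of `Z0 w` has few conjugates under the stabiliser of `w`. -/
theorem cjs_le (S : Setup G Γ) {d : ℕ} (hd : Deg Γ d) {w : V} {a : G} (ha : a ∈ Z0 G Γ w) :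
    (cjs w a).ncard ≤ ((d + 1) ^ 2) ^ ((d + 1) ^ 2) := by
  classical
  have hf : ({y | Nr Γ 2 w y} : Set V).Finite := finite_nr hd.fin w 2
  set B : Set V := {y | Nr Γ 2 w y} with hB
  have : Finite B := hf
  have hc : Nat.card B ≤ (d + 1) ^ 2 := ncard_nr hd w 2
  let Φ : (B → B) → G := fun f =>
    if h : ∃ g : G, g • w = w ∧ ∀ y : B, g • (y : V) = f y then
      h.choose * a * h.choose⁻¹ else 1
  have h1 : cjs w a ⊆ Set.range Φ := by
    rintro _ ⟨g, hg, rfl⟩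
    let f : B → B := fun y => ⟨g • (y : V), by
      have := S.nr_smul g (show Nr Γ 2 w y from y.2)
      rwa [hg] at this⟩
    have h : ∃ g : G, g • w = w ∧ ∀ y : B, g • (y : V) = f y := ⟨g, hg, fun _ => rfl⟩
    refine ⟨f, ?_⟩
    simp only [Φ, dif_pos h]
    have h2 := h.choose_spec
    set g' := h.choose
    have h3 : g⁻¹ * g' ∈ BZ G Γ 2 w := (mem_BZ_nat (n := 2)).2 fun y hy => by
      rw [mul_smul, h2.2 ⟨y, hy⟩]
      exact inv_smul_smul g y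
    have h4 := ha.2 _ h3
    calc g' * a * g'⁻¹ = g * (g⁻¹ * g' * a) * g'⁻¹ := by group
      _ = g * a * g⁻¹ := by rw [h4]; group
  refine (Set.ncard_le_ncard h1 (Set.finite_range Φ)).trans ?_
  have h5 : (Set.range Φ).ncard ≤ Nat.card (B → B) := by
    rw [← Set.image_univ]
    exact (Set.ncard_image_le Set.finite_univ).trans (by rw [Set.ncard_univ])
  refine h5.trans ?_
  rw [Nat.card_fun]
  exact (Nat.pow_le_pow_left hc _).trans (Nat.pow_le_pow_right (by positivity) hc)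

theorem exists_a (S : Setup G Γ) {b : ℕ} (hb : Crit G Γ b) (v : V) :
    ∃ (a : G) (w : V), a ∈ Z0 G Γ w ∧ Nr Γ b v w ∧ a • w = w ∧ a • v = v ∧ a ∉ KK G Γ v := by
  obtain ⟨a, ha, hn⟩ := SetLike.not_le_iff_exists.1 (hb.nle v)
  have hn' : ¬ ∀ y, Nr Γ (b + 1) v y → a • y = y := fun h =>
    hn (by exact_mod_cast (mem_BZ_nat (n := b + 1)).2 h)
  push Not at hn'
  obtain ⟨y, hy, hay⟩ := hn'
  obtain ⟨x, hx, hxy⟩ := nr_split hy
  have hab := hb.le v ha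
  have hax : a • x = x := BZ_fix hab hx le_rfl
  have hK : a ∉ KK G Γ x := fun hK => by
    rcases nr_one hxy with rfl | h
    · exact hay hax
    · exact hay (hK.2 y h)
  obtain ⟨g, rfl⟩ := S.trans x v
  refine ⟨g * a * g⁻¹, g • g • x, eqvZ0 S g _ a ha, (S.nr_smul g hx).symm, ?_, ?_, fun h => hK ?_⟩
  · rw [conj_smul, BZ_fix0 hab (by positivity)]
  · rw [conj_smul, hax]
  · have := S.eqvK g⁻¹ _ _ h
    simpa [mul_assoc] using this

theorem num {d M N : ℕ} (hd : 2 ≤ d) (hM : 1 ≤ M)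
    (h : N ≤ d * (M * ((d + 1) ^ 2) ^ ((d + 1) ^ 2)) ^ (2 * d ^ 2)) :
    Real.logb 2 (N : ℝ) ≤ 5 * ((d : ℝ) + 1) ^ 5 + 2 * (d : ℝ) ^ 2 * Real.logb 2 (M : ℝ) := by
  have hl : 0 ≤ Real.logb 2 (M : ℝ) := Real.logb_nonneg (by norm_num) (by exact_mod_cast hM)
  have hd0 : (0 : ℝ) < d := by exact_mod_cast (by omega : 0 < d)
  have hM0 : (0 : ℝ) < M := by exact_mod_cast hM
  rcases Nat.eq_zero_or_pos N with rfl | hN
  · simp only [Nat.cast_zero, Real.logb_zero]; positivity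
  have h1 : (N : ℝ) ≤ d * (M * (((d : ℝ) + 1) ^ 2) ^ ((d + 1) ^ 2)) ^ (2 * d ^ 2) := by
    exact_mod_cast h
  have h2 := Real.logb_le_logb_of_le (b := 2) (by norm_num) (by exact_mod_cast hN) h1
  rw [Real.logb_mul hd0.ne' (by positivity), Real.logb_pow, Real.logb_mul hM0.ne' (by positivity),
    Real.logb_pow, Real.logb_pow] at h2
  have h3 := logb_succ_le d
  have h4 : Real.logb 2 (d : ℝ) ≤ d :=
    (Real.logb_le_logb_of_le (b := 2) (by norm_num) hd0 (by linarith)).trans h3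
  push_cast at h2
  have h5 : 2 * (d : ℝ) ^ 2 * (((d : ℝ) + 1) ^ 2 * (2 * Real.logb 2 ((d : ℝ) + 1))) ≤
      2 * (d : ℝ) ^ 2 * (((d : ℝ) + 1) ^ 2 * (2 * d)) := by gcongr
  have h6 : (d : ℝ) ^ 3 ≤ ((d : ℝ) + 1) ^ 3 := by gcongr; linarith
  have h7 : 2 * (d : ℝ) ^ 2 * (((d : ℝ) + 1) ^ 2 * (2 * d)) ≤ 4 * ((d : ℝ) + 1) ^ 5 := by
    calc _ = 4 * (((d : ℝ) + 1) ^ 2 * (d : ℝ) ^ 3) := by ring
      _ ≤ 4 * (((d : ℝ) + 1) ^ 2 * ((d : ℝ) + 1) ^ 3) := by gcongr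
      _ = _ := by ring
  have h8 : (d : ℝ) ≤ ((d : ℝ) + 1) ^ 5 :=
    (by linarith : (d : ℝ) ≤ (d : ℝ) + 1).trans (le_self_pow₀ (by linarith) (by norm_num))
  nlinarith

theorem cube_le (d : ℕ) : (d : ℝ) ^ 3 ≤ ((d : ℝ) + 1) ^ 5 ∧ (d : ℝ) ^ 2 ≤ ((d : ℝ) + 1) ^ 5 := by
  have h0 : (0 : ℝ) ≤ d := by positivity
  have h1 : (1 : ℝ) ≤ (d : ℝ) + 1 := by linarith
  exact ⟨(pow_le_pow_left₀ h0 (by linarith) 3).trans (pow_le_pow_right₀ h1 (by norm_num)),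
    (pow_le_pow_left₀ h0 (by linarith) 2).trans (pow_le_pow_right₀ h1 (by norm_num))⟩

end Facts

theorem F0 (S : Setup G Γ) {d : ℕ} (hd : Deg Γ d) {b : ℕ} (hb : Crit G Γ b) (v : V) {k : ℕ}
    (hk : k ≤ b) : lg (BZ G Γ ((b : ℤ) - k) v) ≤ kap d * (k + 1) := by
  obtain ⟨a, w, ha, hw, haw, hav, hK⟩ := Facts.exists_a S hb v
  have hk' : (0 : ℤ) ≤ (b : ℤ) - k := by omega
  have h := lemU S hd hw haw hav hK (Facts.cjs_le S hd ha) (R := BZ G Γ ((b : ℤ) - k) v)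
    (M := (d + 1) ^ (k + 1)) (fun r hr => BZ_fix0 hr hk') fun y hy => by
      obtain ⟨z, hz, hzy⟩ := nr_split (a := b - k) (b := k + 1) (by
        rwa [show b - k + (k + 1) = b + 1 by omega])
      refine (Set.ncard_le_ncard ?_ (finite_nr hd.fin z (k + 1))).trans (ncard_nr hd z (k + 1))
      rintro _ ⟨r, hr, rfl⟩
      have := S.nr_smul r hzy
      rwa [BZ_fix hr hz (by omega)] at this
  have h1 := Facts.num hd.two (Nat.one_le_pow _ _ (by omega)) h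
  push_cast at h1
  rw [Real.logb_pow] at h1
  push_cast at h1
  have h2 := logb_succ_le d
  have h3 := (Facts.cube_le d).1
  have h4 : 2 * (d : ℝ) ^ 2 * (((k : ℝ) + 1) * Real.logb 2 ((d : ℝ) + 1)) ≤
      2 * (d : ℝ) ^ 2 * (((k : ℝ) + 1) * d) := by gcongr
  have h5 : (d : ℝ) ^ 3 * ((k : ℝ) + 1) ≤ ((d : ℝ) + 1) ^ 5 * ((k : ℝ) + 1) := by gcongr
  have h6 : (0 : ℝ) ≤ ((d : ℝ) + 1) ^ 5 * k := by positivity
  unfold lg kap
  nlinarith

theorem F4 (S : Setup G Γ) {d : ℕ} (hd : Deg Γ d) {b : ℕ} (hb : Crit G Γ b) (x : V) :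
    ∃ w, Nr Γ (b + 1) x w ∧ (b : ℝ) ≤ kap d * (om G x w + 1) := by
  obtain ⟨a, w, ha, hw, haw, hav, hK⟩ := Facts.exists_a S hb x
  obtain ⟨y, hy, hmax⟩ := Set.exists_max_image {y | Nr Γ (b + 1) x y}
    (fun y => ({z | ∃ g : G, g • x = x ∧ g • y = z} : Set V).ncard)
    (finite_nr hd.fin x (b + 1)) ⟨x, Nr.refl _ _⟩
  refine ⟨y, hy, ?_⟩
  have h := lemU S hd hw haw hav hK (Facts.cjs_le S hd ha) (R := BZ G Γ 0 x)
    (M := ({z | ∃ g : G, g • x = x ∧ g • y = z} : Set V).ncard)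
    (fun r hr => BZ_fix0 hr le_rfl) fun y' hy' => by
      simpa only [mem_BZ_zero] using hmax y' hy'
  have hfin : ({z | ∃ g : G, g • x = x ∧ g • y = z} : Set V).Finite :=
    (finite_nr hd.fin x (b + 1)).subset (by
      rintro _ ⟨g, hg, rfl⟩
      have := S.nr_smul g (show Nr Γ (b + 1) x y from hy)
      rwa [hg] at this)
  have hM : 1 ≤ ({z | ∃ g : G, g • x = x ∧ g • y = z} : Set V).ncard :=
    (Set.ncard_pos hfin).2 ⟨y, 1, one_smul _ _, one_smul _ _⟩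
  have h1 := Facts.num hd.two hM h
  have h2 := le_lg_BZ S hd b x fun e => hb.Z0_ne x (le_bot_iff.1 (e ▸ hb.le x))
  have h3 : 0 ≤ om G x y := Real.logb_nonneg (by norm_num) (by exact_mod_cast hM)
  have h4 : (d : ℝ) ^ 2 * om G x y ≤ ((d : ℝ) + 1) ^ 5 * om G x y := by
    gcongr; exact (Facts.cube_le d).2
  have h5 : (0 : ℝ) ≤ ((d : ℝ) + 1) ^ 5 * om G x y := by positivity
  have h6 : (0 : ℝ) ≤ ((d : ℝ) + 1) ^ 5 := by positivity
  change lg (BZ G Γ 0 x) ≤ 5 * ((d : ℝ) + 1) ^ 5 + 2 * (d : ℝ) ^ 2 * om G x y at h1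
  unfold kap
  nlinarith

end Pool.Agent.Lib.MP_03ba20_al.W
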