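import Pool.Agent.Lib.MP_03ba20_al.W.Faith
import Pool.Agent.Lib.MP_03ba20_al.W.Facts
import Pool.Agent.Lib.MP_03ba20_al.Main
import Pool.Agent.Lib.MP_03ba20_al.AltTree

namespace Pool.Agent.Lib.MP_03ba20_al.W

open Subgroup MulAction

theorem BZ_eq_bot_of_bound {G V : Type*} [Group G] [MulAction G V] {Γ : SimpleGraph V}
    (S : Setup G Γ) {d : ℕ} (hd : Deg Γ d) {B : ℕ} (hB : ∀ b, Crit G Γ b → b ≤ B) {N : ℕ}
    (h2 : 2 ≤ N) (hN : kap d * (B + 1) ≤ N) (v : V) : BZ G Γ N v = ⊥ := by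
  by_contra h
  have h' : BZ G Γ 2 v ≠ ⊥ := fun e =>
    h (le_bot_iff.1 (e ▸ BZ_anti (by exact_mod_cast h2) v))
  obtain ⟨b, hb⟩ := exists_crit S hd v h'
  have h1 := F0 S hd hb v (k := b) le_rfl
  rw [sub_self] at h1
  have h3 := le_lg_BZ S hd N v h
  have h4 : (b : ℝ) ≤ B := by exact_mod_cast hB b hb
  have h5 := mul_le_mul_of_nonneg_left (show (b : ℝ) + 1 ≤ B + 1 by linarith)
    (zero_le_one.trans (one_le_kap d))
  linarith

theorem weiss_of_bound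
    (hB : ∀ d : ℕ, ∃ B : ℕ, ∀ (G V : Type) [Group G] [MulAction G V] (Γ : SimpleGraph V),
      Setup G Γ → Deg Γ d → ∀ (_x : V) (b : ℕ), Crit G Γ b → b ≤ B) :
    ∀ d : ℕ, 3 ≤ d → ∀ (V : Type) (G : SimpleGraph V), G.IsTree →
      (∀ v : V, (G.neighborSet v).ncard = d) →
      ∃ S : Set (Subgroup (G ≃g G)), S.Finite ∧
        ∀ H : Subgroup (G ≃g G),
          (∀ v : V, {h : G ≃g G | h ∈ H ∧ h v = v}.Finite) →
          (∀ v w : V, ∃ h ∈ H, h v = w) →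
          (∀ v : V,
            (∀ x ∈ G.neighborSet v, ∀ y ∈ G.neighborSet v,
              ∃ h ∈ H, h v = v ∧ h x = y) ∧
            ∀ B : Set V, B ⊆ G.neighborSet v →
              (∀ h ∈ H, h v = v → ((⇑h) '' B = B ∨ Disjoint ((⇑h) '' B) B)) →
              B.Subsingleton ∨ B = G.neighborSet v) →
          ∃ K ∈ S, ∃ g : G ≃g G, ∀ x : G ≃g G, x ∈ H ↔ g⁻¹ * x * g ∈ K := by
  intro d hd V G hT hdeg
  obtain ⟨B, hB⟩ := hB d
  have hD : Deg G d := ⟨by omega, hdeg⟩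
  obtain ⟨S, hS, h⟩ := Rad.finite_classes (⌈kap d * (B + 1)⌉₊ + 2) hT hD.fin
  refine ⟨S, hS, fun H h1 h2 h3 => h H h2 fun v x hx hfix => ?_⟩
  have St := setup_of hT.connected.preconnected h1 h2 h3
  have e := BZ_eq_bot_of_bound St hD (hB H V G St hD v) (N := ⌈kap d * (B + 1)⌉₊ + 2) (by omega)
    (by push_cast; linarith [Nat.le_ceil (kap d * (B + 1))]) v
  exact congrArg Subtype.val ((eq_bot_iff_forall _).1 e ⟨x, hx⟩ (mem_BZ_nat.2 hfix))

end Pool.Agent.Lib.MP_03ba20_al.W
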