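import Pool.Agent.Lib.MP_03ba20_al.W.Defs

namespace Pool.Agent.Lib.MP_03ba20_al.W

open Subgroup MulAction

variable {G V : Type*} [Group G] [MulAction G V] {Γ : SimpleGraph V}

namespace Gamma

theorem ncard_eq (x w : V) : ({y | ∃ g : G, g • x = x ∧ g • w = y} : Set V).ncard =
    (stabilizer G w).relIndex (stabilizer G x) := by
  have h1 : ({y | ∃ g : G, g • x = x ∧ g • w = y} : Set V) = orbit (stabilizer G x) w := by
    ext y
    exact ⟨fun ⟨g, h1, h2⟩ => ⟨⟨g, h1⟩, h2⟩, fun ⟨g, h⟩ => ⟨g.1, g.2, h⟩⟩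
  rw [h1, ← index_stabilizer]
  rfl

theorem cent_sup (A B : Subgroup G) :
    centralizer ((A ⊔ B : Subgroup G) : Set G) = centralizer (A : Set G) ⊓ centralizer (B : Set G) := by
  refine le_antisymm (le_inf (centralizer_le (SetLike.coe_subset_coe.2 le_sup_left))
    (centralizer_le (SetLike.coe_subset_coe.2 le_sup_right))) ?_
  rw [le_centralizer_iff]
  exact sup_le (le_centralizer_iff.1 inf_le_left) (le_centralizer_iff.1 inf_le_right)

theorem idx_cent {A Z : Subgroup G} [Finite Z] (h : A ≤ normalizer (Z : Set G)) :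
    (centralizer (Z : Set G)).relIndex A ≤ Nat.card Z ^ Nat.card Z := by
  have hf : Finite (MulAut Z) := Finite.of_injective _ (DFunLike.coe_injective (F := MulAut Z))
  have h1 : (centralizer (Z : Set G)).relIndex (normalizer (Z : Set G)) =
      Nat.card Z.normalizerMonoidHom.range := by
    rw [relIndex, ← normalizerMonoidHom_ker, index_ker]
  have h2 : Nat.card Z.normalizerMonoidHom.range ≤ Nat.card (Z → Z) :=
    Nat.card_le_card_of_injective (fun f => (f.1 : Z → Z))
      fun a b e => Subtype.ext (DFunLike.coe_injective e)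
  rw [Nat.card_fun] at h2
  refine (relIndex_le_of_le_right h ?_).trans (h1 ▸ h2)
  rw [h1]
  exact Nat.card_pos.ne'

theorem log_pow_le {c : ℕ} (hc : 0 < c) {lam : ℝ} (h : Real.logb 2 (c : ℝ) ≤ lam) :
    Real.logb 2 ((c ^ c : ℕ) : ℝ) ≤ lam * (2 : ℝ) ^ lam := by
  have h1 : (c : ℝ) ≤ (2 : ℝ) ^ lam :=
    (Real.logb_le_iff_le_rpow (by norm_num) (by exact_mod_cast hc)).1 h
  rw [Nat.cast_pow, Real.logb_pow, mul_comm lam]
  exact mul_le_mul h1 h (Real.logb_nonneg (by norm_num) (by exact_mod_cast hc)) (by positivity)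

/-- the group generated by the first `t` groups. -/
def JJ (Z : ℕ → Subgroup G) (a : ℕ) : ℕ → Subgroup G
  | 0 => ⊥
  | t + 1 => JJ Z a t ⊔ Z (a + t)

end Gamma

open Gamma in
theorem gamma (S : Setup G Γ) (y : ℕ → V) (hy : ∀ s, Nr Γ 1 (y s) (y (s + 1))) (a n : ℕ)
    (Z : ℕ → Subgroup G) (W : Subgroup G) [Finite W] {lam : ℝ} (hl : 0 ≤ lam)
    (h : ∀ s, a ≤ s → s ≤ a + n → Z s ≤ W ∧ lg (Z s) ≤ lam ∧
      (∀ g : G, g • y s = y s → g ∈ normalizer (Z s : Set G)) ∧
      ∀ g : G, g • y s = y s → g ∈ centralizer (Z s : Set G) → g ∈ KK G Γ (y s)) :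
    om G (y a) (y (a + n)) ≤ lam * (2 : ℝ) ^ lam * (1 + lg W) := by
  have hfin := S.fin (y a)
  have hA : 0 ≤ lam * (2 : ℝ) ^ lam := by positivity
  have ne : ∀ X : Subgroup G, X.relIndex (stabilizer G (y a)) ≠ 0 := fun X =>
    index_ne_zero_of_finite
  have key : ∀ t, t ≤ n → JJ Z a t ≤ W ∧
      stabilizer G (y a) ⊓ centralizer (JJ Z a t : Set G) ≤ stabilizer G (y (a + t)) ∧
      Real.logb 2 (((centralizer (JJ Z a t : Set G)).relIndex (stabilizer G (y a)) : ℕ) : ℝ) ≤
        lam * (2 : ℝ) ^ lam * lg (JJ Z a t) := by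
    intro t
    induction t with
    | zero =>
      intro _
      refine ⟨bot_le, inf_le_left, ?_⟩
      have : (centralizer ((JJ Z a 0 : Subgroup G) : Set G)).relIndex (stabilizer G (y a)) = 1 :=
        relIndex_eq_one.2 fun g _ x hx => by
          have hx' : x = 1 := hx
          simp [hx']
      rw [this]
      simpa using mul_nonneg hA (lg_nonneg _)
    | succ t ih =>
      intro ht
      obtain ⟨i1, i2, i3⟩ := ih (by omega)
      obtain ⟨z1, z2, z3, z4⟩ := h (a + t) (by omega) (by omega)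
      have j1 : JJ Z a (t + 1) ≤ W := sup_le i1 z1
      have e : centralizer ((JJ Z a (t + 1) : Subgroup G) : Set G) =
          centralizer (JJ Z a t : Set G) ⊓ centralizer (Z (a + t) : Set G) := cent_sup _ _
      refine ⟨j1, fun g hg => ?_, ?_⟩
      · rw [e] at hg
        have k := z4 g (i2 ⟨hg.1, hg.2.1⟩) hg.2.2
        rcases nr_one (hy (a + t)) with e' | e'
        · change g • y (a + t + 1) = y (a + t + 1)
          rw [e']; exact k.1
        · exact k.2 _ e'
      · have hJ : Finite (JJ Z a (t + 1)) := fin_of_le j1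
        have hle : JJ Z a t ≤ JJ Z a (t + 1) := le_sup_left
        rcases hle.eq_or_lt with e' | e'
        · rw [← e']; exact i3
        have hZ : Finite (Z (a + t)) := fin_of_le z1
        have g1 := lg_gap e'
        have g2 := relIndex_inf_mul_relIndex (centralizer (Z (a + t) : Set G))
          (centralizer (JJ Z a t : Set G)) (stabilizer G (y a))
        have g3 : (centralizer (Z (a + t) : Set G)).relIndex
            (centralizer (JJ Z a t : Set G) ⊓ stabilizer G (y a)) ≤ _ :=
          idx_cent fun g hg => z3 g (i2 ⟨hg.2, hg.1⟩)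
        have g4 := log_pow_le (Nat.card_pos (α := Z (a + t))) z2
        rw [inf_comm (centralizer (Z (a + t) : Set G)), ← e] at g2
        have g5 := ne (centralizer (JJ Z a (t + 1) : Set G))
        rw [← g2] at g5 ⊢
        have g6 := (mul_ne_zero_iff.1 g5).1
        have g7 := Real.logb_le_logb_of_le (b := 2) (by norm_num)
          (by exact_mod_cast Nat.pos_of_ne_zero g6) (Nat.cast_le (α := ℝ).2 g3)
        rw [Nat.cast_mul, Real.logb_mul (by exact_mod_cast g6) (by exact_mod_cast ne _)]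
        nlinarith [mul_le_mul_of_nonneg_left g1 hA]
  obtain ⟨k1, k2, k3⟩ := key n le_rfl
  have m1 : (stabilizer G (y (a + n))).relIndex (stabilizer G (y a)) ≤
      (centralizer (JJ Z a n : Set G)).relIndex (stabilizer G (y a)) := by
    rw [← inf_relIndex_left (stabilizer G (y a)) (centralizer (JJ Z a n : Set G))]
    exact relIndex_le_of_le_left k2 (ne _)
  have m2 := Real.logb_le_logb_of_le (b := 2) (by norm_num)
    (by exact_mod_cast Nat.pos_of_ne_zero (ne _)) (Nat.cast_le (α := ℝ).2 m1)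
  have m3 := mul_le_mul_of_nonneg_left (lg_mono k1) hA
  unfold om
  rw [ncard_eq]
  nlinarith

end Pool.Agent.Lib.MP_03ba20_al.W
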