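import Pool.Agent.Lib.MP_03ba20_al.W.Defs

/-! The valuation on intervals of subgroups and bimultiplicativity of the commutator. -/

namespace Pool.Agent.Lib.MP_03ba20_al.W

open Subgroup MulAction
open scoped commutatorElement

variable {G V : Type*} [Group G] [MulAction G V] {Γ : SimpleGraph V}

theorem lg_add {X Y : Subgroup G} [Finite X] [Finite Y] (h : X ≤ normalizer (Y : Set G)) :
    Finite (X ⊔ Y : Subgroup G) ∧ lg (X ⊔ Y) + lg (X ⊓ Y) = lg X + lg Y := by
  have h1 := card_eq_card_quotient_mul_card_subgroup (Y.subgroupOf X)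
  have h2 := card_eq_card_quotient_mul_card_subgroup (Y.subgroupOf (X ⊔ Y))
  have := normal_subgroupOf_of_le_normalizer h
  have := normal_subgroupOf_sup_of_le_normalizer h
  have h3 := Nat.card_congr (QuotientGroup.quotientInfEquivProdNormalizerQuotient X Y h).toEquiv
  have h4 : Nat.card (Y.subgroupOf (X ⊔ Y)) = Nat.card Y :=
    Nat.card_congr (subgroupOfEquivOfLe le_sup_right).toEquiv
  have h5 : Nat.card (Y.subgroupOf X) = Nat.card (X ⊓ Y : Subgroup G) := by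
    rw [← inf_subgroupOf_left]
    exact Nat.card_congr (subgroupOfEquivOfLe inf_le_left).toEquiv
  have hX : 0 < Nat.card X := Nat.card_pos
  have hY : 0 < Nat.card Y := Nat.card_pos
  have : Finite (X ⊓ Y : Subgroup G) := fin_of_le inf_le_left
  have hI : 0 < Nat.card (X ⊓ Y : Subgroup G) := Nat.card_pos
  have h6 : Nat.card (X ⊔ Y : Subgroup G) * Nat.card (X ⊓ Y : Subgroup G) =
      Nat.card X * Nat.card Y := by
    rw [h2, ← h3, h4, h1, h5]; ring
  have hS : 0 < Nat.card (X ⊔ Y : Subgroup G) :=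
    Nat.pos_of_mul_pos_right (h6 ▸ Nat.mul_pos hX hY)
  refine ⟨Nat.finite_of_card_ne_zero hS.ne', ?_⟩
  unfold lg
  rw [← Real.logb_mul (by positivity) (by positivity),
    ← Real.logb_mul (by positivity) (by positivity)]
  congr 1
  exact_mod_cast h6

namespace Ival

theorem val_Icc {A B : Subgroup G} [Finite B]
    (h : ∀ X Y : Subgroup G, X ≤ B → A ≤ Y → Y ≤ B → X ≤ normalizer (Y : Set G)) :
    Val fun X : Set.Icc A B => lg X.1 where
  add := fun x y => by
    have := fin_of_le x.2.2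
    have := fin_of_le y.2.2
    exact (lg_add (h x.1 y.1 x.2.2 y.2.1 y.2.2)).2
  gap := fun x y hxy => by
    have := fin_of_le y.2.2
    exact lg_gap hxy

theorem comm_mem {T N : Subgroup G} (h : Prg T N) {x y : G} (hx : x ∈ T) (hy : y ∈ N) :
    ⁅x, y⁆ ∈ T := by
  rw [commutatorElement_def, mul_assoc, mul_assoc, ← mul_assoc y]
  exact T.mul_mem hx ((mem_normalizer_iff.1 (h.nrm hy) _).1 (T.inv_mem hx))

end Ival

theorem Prg.val₁ {T N : Subgroup G} (h : Prg T N) [Finite T] :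
    Val fun X : Set.Icc (T ⊓ centralizer (N : Set G)) T => lg X.1 :=
  Ival.val_Icc fun _ _ hX _ hY =>
    ((hX.trans h.ab).trans (centralizer_le hY)).trans (centralizer_le_normalizer _)

theorem Prg.val₂ {T N : Subgroup G} (h : Prg T N) [Finite N] :
    Val fun Y : Set.Icc (N ⊓ centralizer (T : Set G)) N => lg Y.1 := by
  have h1 : ⁅⁅T, N⁆, N⁆ = ⊥ := commutator_eq_bot_iff_le_centralizer.2 h.cen
  have h2 : ⁅N, N⁆ ≤ centralizer (T : Set G) := commutator_eq_bot_iff_le_centralizer.1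
    (commutator_commutator_eq_bot_of_rotate (by rwa [commutator_comm N T]) h1)
  refine Ival.val_Icc fun X Y hX hA hY x hx => ?_
  have := fin_of_le hY
  refine mem_normalizer_fintype (S := (Y : Set G)) fun y hy => ?_
  have h3 : ⁅x, y⁆ ∈ Y := hA ⟨N.mul_mem (N.mul_mem (N.mul_mem (hX hx) (hY hy))
    (N.inv_mem (hX hx))) (N.inv_mem (hY hy)),
    h2 (commutator_mem_commutator (hX hx) (hY hy))⟩
  simpa only [commutatorElement_def, inv_mul_cancel_right, SetLike.mem_coe] using Y.mul_mem h3 hy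

theorem Prg.supl {T N : Subgroup G} (h : Prg T N) {X X' Y : Subgroup G} (hX : X ≤ T) (hX' : X' ≤ T)
    (hY : Y ≤ N) : ⁅X ⊔ X', Y⁆ ≤ ⁅X, Y⁆ ⊔ ⁅X', Y⁆ := by
  refine commutator_le.2 fun x hx y hy => ?_
  have hx' : x ∈ ((X ⊔ X' : Subgroup G) : Set G) := hx
  rw [coe_mul_of_left_le_normalizer_right X X'
    (((hX.trans h.ab).trans (centralizer_le hX')).trans (centralizer_le_normalizer _))] at hx'
  obtain ⟨a, ha, b, hb, rfl⟩ := hx'
  have h1 := h.ab (hX ha) _ (Ival.comm_mem h (hX' hb) (hY hy))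
  have h2 : ⁅a * b, y⁆ = ⁅b, y⁆ * ⁅a, y⁆ := by
    calc ⁅a * b, y⁆ = a * ⁅b, y⁆ * (y * a⁻¹ * y⁻¹) := by simp only [commutatorElement_def]; group
      _ = _ := by rw [← h1]; simp only [commutatorElement_def]; group
  change ⁅a * b, y⁆ ∈ _
  rw [h2]
  exact mul_mem (mem_sup_right (commutator_mem_commutator hb hy))
    (mem_sup_left (commutator_mem_commutator ha hy))

theorem Prg.supr {T N : Subgroup G} (h : Prg T N) {X Y Y' : Subgroup G} (hX : X ≤ T) (hY : Y ≤ N)
    (hY' : Y' ≤ N) : ⁅X, Y ⊔ Y'⁆ ≤ ⁅X, Y⁆ ⊔ ⁅X, Y'⁆ := by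
  refine commutator_le.2 fun x hx => ?_
  have hc : ∀ {a b : G}, a ∈ N → b ∈ N → a * ⁅x, b⁆ = ⁅x, b⁆ * a := fun ha hb =>
    h.cen (commutator_mem_commutator (hX hx) hb) _ ha
  let S : Subgroup G :=
    { carrier := {y | y ∈ N ∧ ⁅x, y⁆ ∈ ⁅X, Y⁆ ⊔ ⁅X, Y'⁆}
      one_mem' := ⟨one_mem _, by simp⟩
      mul_mem' := fun {a b} ha hb => ⟨mul_mem ha.1 hb.1, by
        have : ⁅x, a * b⁆ = ⁅x, a⁆ * ⁅x, b⁆ := by
          calc ⁅x, a * b⁆ = ⁅x, a⁆ * (a * ⁅x, b⁆) * a⁻¹ := by
                simp only [commutatorElement_def]; group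
            _ = _ := by rw [hc ha.1 hb.1]; group
        rw [this]; exact mul_mem ha.2 hb.2⟩
      inv_mem' := fun {a} ha => ⟨inv_mem ha.1, by
        have : ⁅x, a⁻¹⁆ = ⁅x, a⁆⁻¹ := by
          calc ⁅x, a⁻¹⁆ = (a⁻¹ * ⁅x, a⁆ * a)⁻¹ := by simp only [commutatorElement_def]; group
            _ = _ := by rw [hc (inv_mem ha.1) ha.1]; group
        rw [this]; exact inv_mem ha.2⟩ }
  have : Y ⊔ Y' ≤ S := sup_le
    (fun y hy => ⟨hY hy, mem_sup_left (commutator_mem_commutator hx hy)⟩)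
    (fun y hy => ⟨hY' hy, mem_sup_right (commutator_mem_commutator hx hy)⟩)
  exact fun y hy => (this hy).2

end Pool.Agent.Lib.MP_03ba20_al.W
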