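import Pool.Agent.Lib.MP_03ba20_al.W.Defs

namespace Pool.Agent.Lib.MP_03ba20_al.W

open Subgroup MulAction

variable {G V : Type*} [Group G] [MulAction G V] {Γ : SimpleGraph V}

namespace U

theorem cjs_fix {a : G} {x : V} (hax : a • x = x) {c : G} (hc : c ∈ cjs x a) : c • x = x := by
  obtain ⟨g, hg, rfl⟩ := hc
  rw [← hg, conj_smul, hax]

theorem closure_fix {s : Set G} {x : V} (hs : ∀ c ∈ s, c • x = x) {h : G} (hh : h ∈ closure s) :
    h • x = x :=
  (show closure s ≤ stabilizer G x from (closure_le _).2 hs) hh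

theorem cjs_finite (S : Setup G Γ) (w : V) (a : G) : (cjs w a).Finite := by
  have := S.fin w
  refine (Set.finite_range fun g : stabilizer G w => g.1 * a * g.1⁻¹).subset ?_
  rintro _ ⟨g, hg, rfl⟩
  exact ⟨⟨g, hg⟩, rfl⟩

/-- the conjugates of an element moving a neighbour generate a transitive group. -/
theorem PR (S : Setup G Γ) {a : G} {x u : V} (hax : a • x = x) (hK : a ∉ KK G Γ x)
    (hu : Γ.Adj x u) {y : V} (hy : Γ.Adj x y) : ∃ h ∈ closure (cjs x a), h • u = y := by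
  have nrm : ∀ g : G, g • x = x → ∀ h ∈ closure (cjs x a), g * h * g⁻¹ ∈ closure (cjs x a) :=
    fun g hg h hh => by
      have : closure (cjs x a) ≤ cj g⁻¹ (closure (cjs x a)) := (closure_le _).2 (by
        rintro _ ⟨k, hk, rfl⟩
        exact mem_cj.2 (subset_closure ⟨g * k, by rw [mul_smul, hk, hg], by group⟩))
      simpa using mem_cj.1 (this hh)
  let H : Subgroup G :=
    { carrier := {g | g • x = x ∧ ∃ h ∈ closure (cjs x a), g • u = h • u}
      one_mem' := ⟨one_smul _ _, 1, one_mem _, rfl⟩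
      mul_mem' := by
        rintro g g' ⟨g1, h, hh, e⟩ ⟨g2, h', hh', e'⟩
        refine ⟨by rw [mul_smul, g2, g1], g * h' * g⁻¹ * h, mul_mem (nrm g g1 h' hh') hh, ?_⟩
        rw [mul_smul, e', mul_smul, ← e, conj_smul]
      inv_mem' := by
        rintro g ⟨g1, h, hh, e⟩
        refine ⟨inv_fix g1, g⁻¹ * h⁻¹ * g⁻¹⁻¹, nrm _ (inv_fix g1) _ (inv_mem hh), ?_⟩
        rw [inv_inv, mul_smul, mul_smul, e, inv_smul_smul] }
  obtain ⟨g, g1, g2⟩ := S.move hax hK hu
  have g3 : (g * a * g⁻¹) • x = x := cjs_fix hax ⟨g, g1, rfl⟩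
  obtain ⟨k, ⟨-, h, hh, e⟩, -, k2⟩ := S.prim x u hu H
    (fun g g1 g2 => ⟨g1, 1, one_mem _, by rw [g2, one_smul]⟩) (g * a * g⁻¹)
    ⟨g3, _, subset_closure ⟨g, g1, rfl⟩, rfl⟩ g3 g2 y hy
  exact ⟨h, hh, by rw [← e, k2]⟩

/-- few conjugates suffice. -/
theorem few (S : Setup G Γ) {d : ℕ} (hd : Deg Γ d) {a : G} {x : V} (hax : a • x = x)
    (hK : a ∉ KK G Γ x) :
    ∃ s : Finset G, s.card ≤ d ∧ (∀ c ∈ s, c ∈ cjs x a) ∧ Tr Γ (closure (s : Set G)) x := by
  classical
  obtain ⟨u, hu⟩ := hd.exists_adj x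
  let O : Finset G → Set V := fun s => {y | ∃ h ∈ closure (s : Set G), h • u = y}
  have sub : ∀ s : Finset G, (∀ c ∈ s, c ∈ cjs x a) → O s ⊆ Γ.neighborSet x := by
    rintro s hs _ ⟨h, hh, rfl⟩
    have := S.adj h _ _ hu
    rwa [closure_fix (fun c hc => cjs_fix hax (hs c hc)) hh] at this
  have key : ∀ n : ℕ, ∃ s : Finset G, s.card ≤ n ∧ (∀ c ∈ s, c ∈ cjs x a) ∧
      (Γ.neighborSet x ⊆ O s ∨ n + 1 ≤ (O s).ncard) := by
    intro n
    induction n with
    | zero =>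
      refine ⟨∅, le_rfl, by simp, Or.inr ?_⟩
      exact (Set.ncard_pos ((hd.fin x).subset (sub ∅ (by simp)))).2 ⟨u, 1, one_mem _, one_smul _ _⟩
    | succ n ih =>
      obtain ⟨s, h1, h2, h3⟩ := ih
      by_cases h4 : Γ.neighborSet x ⊆ O s
      · exact ⟨s, h1.trans n.le_succ, h2, Or.inl h4⟩
      have h5 := h3.resolve_left h4
      have : ∃ c ∈ cjs x a, ∃ y ∈ O s, c • y ∉ O s ∨ c⁻¹ • y ∉ O s := by
        by_contra hc
        push Not at hc
        refine h4 fun y hy => ?_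
        obtain ⟨h, hh, rfl⟩ := PR S hax hK hu hy
        have : ∀ y ∈ O s, h • y ∈ O s := by
          clear hy
          induction hh using closure_induction'' with
          | mem c hc' => exact fun y hy => (hc c hc' y hy).1
          | inv_mem c hc' => exact fun y hy => (hc c hc' y hy).2
          | one => simp
          | mul g g' _ _ i1 i2 => exact fun y hy => by rw [mul_smul]; exact i1 _ (i2 y hy)
        exact this u ⟨1, one_mem _, one_smul _ _⟩
      obtain ⟨c, hc, _, ⟨h, hh, rfl⟩, hy⟩ := this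
      have h6 : ∀ c' ∈ insert c s, c' ∈ cjs x a := fun c' hc' => by
        rcases Finset.mem_insert.1 hc' with rfl | hc'
        · exact hc
        · exact h2 c' hc'
      have h7 : closure (s : Set G) ≤ closure ((insert c s : Finset G) : Set G) :=
        closure_mono (by simp)
      have h8 : c ∈ closure ((insert c s : Finset G) : Set G) := subset_closure (by simp)
      refine ⟨insert c s, (Finset.card_insert_le _ _).trans (by omega), h6, Or.inr ?_⟩
      refine Nat.succ_le_of_lt (h5.trans_lt (Set.ncard_lt_ncard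
        ⟨fun y ⟨k, hk, e⟩ => ⟨k, h7 hk, e⟩, fun hs => ?_⟩ ((hd.fin x).subset (sub _ h6))))
      rcases hy with hy | hy
      · exact hy (hs ⟨c * h, mul_mem h8 (h7 hh), mul_smul _ _ _⟩)
      · exact hy (hs ⟨c⁻¹ * h, mul_mem (inv_mem h8) (h7 hh), mul_smul _ _ _⟩)
  obtain ⟨s, h1, h2, h3⟩ := key d
  refine ⟨s, h1, h2, fun y z hy hz => ?_⟩
  have h4 : Γ.neighborSet x ⊆ O s := h3.resolve_right fun h => by
    have := Set.ncard_le_ncard (sub s h2) (hd.fin x)
    rw [hd.card] at this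
    omega
  obtain ⟨h, hh, rfl⟩ := h4 hy
  obtain ⟨k, hk, rfl⟩ := h4 hz
  have := mul_mem hk (inv_mem hh)
  exact ⟨k * h⁻¹, this, closure_fix (fun c hc => cjs_fix hax (h2 c hc)) this, by simp [mul_smul]⟩

/-- the conjugates of `a` under `R`. -/
def cjR (R : Subgroup G) (a : G) : Set G := {x | ∃ r ∈ R, r * a * r⁻¹ = x}

theorem cjR_finite {R : Subgroup G} [Finite R] (a : G) : (cjR R a).Finite := by
  refine (Set.finite_range fun g : R => g.1 * a * g.1⁻¹).subset ?_
  rintro _ ⟨g, hg, rfl⟩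
  exact ⟨⟨g, hg⟩, rfl⟩

theorem cjR_le (S : Setup G Γ) {R : Subgroup G} [Finite R] {a : G} {w : V} {c M : ℕ}
    (hc : (cjs w a).ncard ≤ c) (hM : ({z | ∃ r ∈ R, r • w = z} : Set V).ncard ≤ M) :
    (cjR R a).ncard ≤ M * c := by
  classical
  have f1 : ({z | ∃ r ∈ R, r • w = z} : Set V).Finite := by
    refine (Set.finite_range fun g : R => g.1 • w).subset ?_
    rintro _ ⟨g, hg, rfl⟩
    exact ⟨⟨g, hg⟩, rfl⟩
  have f2 := cjR_finite (R := R) a
  have : ∀ y, ∃ r : G, y ∈ cjR R a → r ∈ R ∧ r * a * r⁻¹ = y := fun y => by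
    by_cases h : y ∈ cjR R a
    · exact h.imp fun r hr _ => hr
    · exact ⟨1, fun h' => absurd h' h⟩
  choose ρ hρ using this
  rw [Set.ncard_eq_toFinset_card _ f2]
  rw [Set.ncard_eq_toFinset_card _ f1] at hM
  refine (Finset.card_le_mul_card_image_of_maps_to (f := fun y => ρ y • w) (t := f1.toFinset)
    (fun y hy => ?_) c fun z hz => ?_).trans (by rw [mul_comm]; exact Nat.mul_le_mul_right _ hM)
  · exact f1.mem_toFinset.2 ⟨_, (hρ y (f2.mem_toFinset.1 hy)).1, rfl⟩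
  obtain ⟨r, -, rfl⟩ := f1.mem_toFinset.1 hz
  rw [← ncard_cjs_conj r] at hc
  refine le_trans ?_ hc
  rw [← Set.ncard_coe_finset]
  refine Set.ncard_le_ncard (fun y hy => ?_) (cjs_finite S _ _)
  obtain ⟨h1, h2⟩ := Finset.mem_filter.1 hy
  have h3 := (hρ y (f2.mem_toFinset.1 h1)).2
  exact ⟨ρ y * r⁻¹, by rw [mul_smul, inv_smul_smul, h2], Eq.trans (by group) h3⟩

end U

open U in
theorem lemU (S : Setup G Γ) {d : ℕ} (hd : Deg Γ d) {a : G} {w x : V} {β : ℕ} (hwx : Nr Γ β x w)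
    (_haw : a • w = w) (hax : a • x = x) (hK : a ∉ KK G Γ x) {c M : ℕ}
    (hc : (cjs w a).ncard ≤ c) {R : Subgroup G} (hR : ∀ r ∈ R, r • x = x)
    (hM : ∀ y, Nr Γ (β + 1) x y → ({z | ∃ r ∈ R, r • y = z} : Set V).ncard ≤ M) :
    Nat.card R ≤ d * (M * c) ^ (2 * d ^ 2) := by
  classical
  have := fin_of_fix S hR
  obtain ⟨s, h1, h2, h3⟩ := few S hd hax hK
  obtain ⟨x', hx'⟩ := hd.exists_adj x
  obtain ⟨g, hg⟩ := S.trans x x'
  let t : Finset G := s ∪ s.image fun c => g * c * g⁻¹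
  have t1 : t.card ≤ 2 * d ^ 2 := by
    have : t.card ≤ _ := Finset.card_union_le s (s.image fun c => g * c * g⁻¹)
    have := Finset.card_image_le (s := s) (f := fun c => g * c * g⁻¹)
    have : d ≤ d ^ 2 := Nat.le_self_pow (by norm_num) d
    omega
  have t2 : ∀ e ∈ t, (cjR R e).ncard ≤ M * c := fun e he => by
    rcases Finset.mem_union.1 he with he | he
    · obtain ⟨k, hk, rfl⟩ := h2 e he
      refine cjR_le S (w := k • w) (by rwa [ncard_cjs_conj]) (hM _ ?_)
      simpa [hk] using (S.nr_smul k hwx).succ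
    · obtain ⟨e', he', rfl⟩ := Finset.mem_image.1 he
      obtain ⟨k, hk, rfl⟩ := h2 e' he'
      refine cjR_le S (w := g • k • w) (by rwa [ncard_cjs_conj, ncard_cjs_conj]) (hM _ ?_)
      have := S.nr_smul g (S.nr_smul k hwx)
      rw [hk, hg] at this
      exact this.cons hx'
  have t3 : ∀ r : G, r • x = x → r • x' = x' → (∀ e ∈ t, r * e * r⁻¹ = e) → r = 1 := by
    let X : Set G := {r | r • x = x ∧ r • x' = x' ∧ ∀ e ∈ t, r * e * r⁻¹ = e}
    have cen : ∀ e ∈ t, e ∈ normalizer X := fun e he => by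
      have k : ∀ r ∈ X, e * r = r * e := fun r hr =>
        (mul_inv_eq_iff_eq_mul.1 (hr.2.2 e he)).symm
      exact mem_nrm (fun r hr => by rwa [k r hr, mul_inv_cancel_right])
        fun r hr => by rwa [mul_assoc, ← k r hr, inv_mul_cancel_left]
    have c1 : closure (s : Set G) ≤ normalizer X :=
      (closure_le _).2 fun e he => cen e (Finset.mem_union_left _ he)
    have c2 : closure (s : Set G) ≤ cj g⁻¹ (normalizer X) :=
      (closure_le _).2 fun e he => mem_cj.2 (by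
        simpa using cen _ (Finset.mem_union_right _ (Finset.mem_image_of_mem _ he)))
    refine fun r r1 r2 r3 => S.TL hx' (X := X) (fun r hr => ⟨hr.1, hr.2.1⟩)
      (fun y z hy hz => (h3 y z hy hz).imp fun h hh => ⟨c1 hh.1, hh.2⟩) (fun y z hy hz => ?_) r
      ⟨r1, r2, r3⟩
    rw [← hg] at hy hz ⊢
    obtain ⟨h, hh, e1, e2⟩ := h3 (g⁻¹ • y) (g⁻¹ • z) (by simpa using S.adj g⁻¹ _ _ hy)
      (by simpa using S.adj g⁻¹ _ _ hz)
    exact ⟨g * h * g⁻¹, by simpa using mem_cj.1 (c2 hh), by rw [conj_smul, e1],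
      by simp [mul_smul, e2]⟩
  have f1 := (hd.fin x).to_subtype
  have f2 : ∀ e : t, Finite (cjR R e.1) := fun e => (cjR_finite e.1).to_subtype
  let φ : R → Γ.neighborSet x × ((e : t) → cjR R e.1) := fun r =>
    (⟨r.1 • x', by simpa [hR r.1 r.2] using S.adj r.1 _ _ hx'⟩,
      fun e => ⟨r.1 * e.1 * r.1⁻¹, r.1, r.2, rfl⟩)
  have inj : Function.Injective φ := fun r r' e => by
    have e1 : r.1 • x' = r'.1 • x' := congrArg (fun p => p.1.1) e
    have e2 : ∀ k ∈ t, r.1 * k * r.1⁻¹ = r'.1 * k * r'.1⁻¹ := fun k hk =>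
      congrArg (fun p => (p.2 ⟨k, hk⟩).1) e
    have := t3 (r'.1⁻¹ * r.1) (hR _ (mul_mem (inv_mem r'.2) r.2))
      (by rw [mul_smul, e1, inv_smul_smul]) fun k hk => by
        calc r'.1⁻¹ * r.1 * k * (r'.1⁻¹ * r.1)⁻¹ = r'.1⁻¹ * (r.1 * k * r.1⁻¹) * r'.1 := by group
          _ = k := by rw [e2 k hk]; group
    exact Subtype.ext (inv_mul_eq_one.1 this).symm
  refine (Nat.card_le_card_of_injective φ inj).trans ?_
  rw [Nat.card_prod, Nat.card_pi, Nat.card_coe_set_eq, hd.card]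
  refine Nat.mul_le_mul_left _ ((Finset.prod_le_pow_card _ _ (M * c) fun e _ => ?_).trans ?_)
  · rw [Nat.card_coe_set_eq]; exact t2 e.1 e.2
  · refine Nat.pow_le_pow_right ?_ (by simpa using t1)
    exact ((Set.ncard_pos (cjR_finite a)).2 ⟨_, 1, one_mem _, rfl⟩).trans_le
      (cjR_le S hc (hM w hwx.succ))

end Pool.Agent.Lib.MP_03ba20_al.W
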