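import Pool.Agent.Lib.MP_03ba20_al.W.Nr
import Pool.Agent.Lib.MP_03ba20_al.W.U

namespace Pool.Agent.Lib.MP_03ba20_al.W

open Subgroup MulAction

variable {G V : Type*} [Group G] [MulAction G V] {Γ : SimpleGraph V}

namespace LemA

theorem le_transport {A B : V → Subgroup G} (hA : Eqv A) (hB : Eqv B) (S : Setup G Γ) {v : V}
    (h : A v ≤ B v) (x : V) : A x ≤ B x := by
  obtain ⟨g, rfl⟩ := S.trans v x
  intro a ha
  rw [← hA.cj_eq, mem_cj] at ha
  rw [← hB.cj_eq, mem_cj]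
  exact h ha

theorem num {d c N : ℕ} {γ : ℝ} (hγ : 0 ≤ γ) (hc : Real.logb 2 (c : ℝ) ≤ γ)
    (hN : N ≤ d * ((d + 1) * c) ^ (2 * d ^ 2)) : Real.logb 2 (N : ℝ) ≤ kap d * (γ + 1) := by
  have hd : (0 : ℝ) ≤ d := Nat.cast_nonneg d
  have hk : (d : ℝ) + 2 * d ^ 2 * (d + γ) ≤ kap d * (γ + 1) := by
    unfold kap
    have h1 : (d : ℝ) + 2 * d ^ 3 ≤ 7 * ((d : ℝ) + 1) ^ 5 := by
      have : 7 * ((d : ℝ) + 1) ^ 5 - (d + 2 * d ^ 3) =
          7 * d ^ 5 + 35 * d ^ 4 + 68 * d ^ 3 + 70 * d ^ 2 + 34 * d + 7 := by ring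
      have h2 : (0 : ℝ) ≤ 7 * d ^ 5 + 35 * d ^ 4 + 68 * d ^ 3 + 70 * d ^ 2 + 34 * d + 7 := by
        positivity
      linarith
    have h2 : 2 * (d : ℝ) ^ 2 ≤ 7 * ((d : ℝ) + 1) ^ 5 := by
      have : 7 * ((d : ℝ) + 1) ^ 5 - 2 * d ^ 2 =
          7 * d ^ 5 + 35 * d ^ 4 + 70 * d ^ 3 + 68 * d ^ 2 + 35 * d + 7 := by ring
      have h2 : (0 : ℝ) ≤ 7 * d ^ 5 + 35 * d ^ 4 + 70 * d ^ 3 + 68 * d ^ 2 + 35 * d + 7 := by
        positivity
      linarith
    have h3 := mul_le_mul_of_nonneg_right h2 hγ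
    nlinarith
  rcases Nat.eq_zero_or_pos N with rfl | hpos
  · have : (0 : ℝ) ≤ (d : ℝ) + 2 * d ^ 2 * (d + γ) := by positivity
    simpa using this.trans hk
  refine le_trans ?_ hk
  have hc' : (c : ℝ) ≤ (2 : ℝ) ^ γ := by
    rcases Nat.eq_zero_or_pos c with rfl | hc0
    · simpa using (Real.rpow_pos_of_pos two_pos γ).le
    · exact (Real.logb_le_iff_le_rpow (by norm_num) (by exact_mod_cast hc0)).1 hc
  have hd' : (d : ℝ) + 1 ≤ (2 : ℝ) ^ (d : ℝ) :=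
    (Real.logb_le_iff_le_rpow (by norm_num) (by positivity)).1 (logb_succ_le d)
  rw [Real.logb_le_iff_le_rpow (by norm_num) (by exact_mod_cast hpos)]
  have h1 : (N : ℝ) ≤ d * (((d : ℝ) + 1) * c) ^ (2 * d ^ 2) := by exact_mod_cast hN
  have h2 : ((d : ℝ) + 1) * c ≤ (2 : ℝ) ^ ((d : ℝ) + γ) := by
    rw [Real.rpow_add two_pos]
    exact mul_le_mul hd' hc' (Nat.cast_nonneg c) (by positivity)
  have h3 : (((d : ℝ) + 1) * c) ^ (2 * d ^ 2) ≤ (2 : ℝ) ^ (2 * (d : ℝ) ^ 2 * (d + γ)) := by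
    refine (pow_le_pow_left₀ (by positivity) h2 _).trans (le_of_eq ?_)
    rw [← Real.rpow_natCast, ← Real.rpow_mul (by norm_num)]
    congr 1
    push_cast
    ring
  rw [Real.rpow_add two_pos]
  exact h1.trans (mul_le_mul (by linarith) h3 (by positivity) (by positivity))

end LemA

theorem F3 (S : Setup G Γ) {d : ℕ} (hd : Deg Γ d) {γ : ℝ} (hγ : 0 ≤ γ) (v : V) :
    lg (WW G γ v) ≤ kap d * (γ + 1) := by
  classical
  by_cases h0 : WW G γ v = ⊥
  · have := one_le_kap d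
    rw [h0]
    unfold lg
    simp only [card_bot, Nat.cast_one, Real.logb_one]
    positivity
  have hex : ∃ n : ℕ, ¬ WW G γ v ≤ BZ G Γ n v := by
    by_contra hc
    push Not at hc
    refine h0 ((eq_bot_iff_forall _).2 fun a ha => S.faith a fun w => ?_)
    obtain ⟨n, hn⟩ := exists_nr S.conn v w
    exact BZ_fix (hc n ha) hn le_rfl
  have hs := Nat.find_spec hex
  obtain ⟨β, hβ⟩ : ∃ β, Nat.find hex = β + 1 := by
    refine Nat.exists_eq_succ_of_ne_zero fun e => hs ?_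
    rw [e]
    exact fun a ha => mem_BZ_zero.2 (WW_fix ha)
  have hle : WW G γ v ≤ BZ G Γ β v := by
    have := Nat.find_min hex (m := β) (by omega)
    simpa using this
  rw [hβ] at hs
  have hg : ∃ a : G, (a • v = v ∧ Real.logb 2 ((cjs v a).ncard : ℝ) ≤ γ) ∧
      a ∉ BZ G Γ ((β + 1 : ℕ) : ℤ) v := by
    by_contra hc
    push Not at hc
    exact hs ((closure_le _).2 fun a ha => hc a ha)
  obtain ⟨a, ha, hna⟩ := hg
  have haW : a ∈ WW G γ v := subset_closure ha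
  rw [mem_BZ_nat] at hna
  push Not at hna
  obtain ⟨w, hw, haw⟩ := hna
  obtain ⟨x, hx, hxw⟩ := nr_split hw
  have hax : a • x = x := BZ_fix (hle haW) hx le_rfl
  have hK : a ∉ KK G Γ x := fun hk => by
    rcases nr_one hxw with rfl | h'
    · exact haw hax
    · exact haw (hk.2 w h')
  have hlx : WW G γ x ≤ BZ G Γ β x := LemA.le_transport (eqvWW γ) (eqvBZ S β) S hle x
  have hU := lemU S hd (hx.symm) ha.1 hax hK (c := (cjs v a).ncard) (M := d + 1) le_rfl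
    (R := WW G γ x) (fun _ => WW_fix) (fun y hy => by
      obtain ⟨z, hz, hzy⟩ := nr_split hy
      have h1 : ({z | ∃ r ∈ WW G γ x, r • y = z} : Set V) ⊆ {u | Nr Γ 1 z u} := by
        rintro _ ⟨r, hr, rfl⟩
        have := S.nr_smul r hzy
        rwa [BZ_fix (hlx hr) hz le_rfl] at this
      have h2 := Set.ncard_le_ncard h1 (finite_nr hd.fin z 1)
      simpa using h2.trans (ncard_nr hd z 1))
  rw [lg_eqv (eqvWW γ) S v x]
  exact LemA.num hγ ha.2 hU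

end Pool.Agent.Lib.MP_03ba20_al.W
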