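import Pool.Agent.Lib.MP_03ba20_al.W.Nr

namespace Pool.Agent.Lib.MP_03ba20_al.W

open Subgroup MulAction

variable {G V : Type*} [Group G] [MulAction G V] {Γ : SimpleGraph V}

namespace LemB

theorem count {Q : Type*} [Finite Q] {A : Set G} (B : Q → Subgroup G) (hf : ∀ c, Finite (B c))
    {γ' : ℝ} (hB : ∀ c, lg (B c) ≤ γ') (hA : ∀ a ∈ A, ∃ c, a ∈ B c) :
    (A.ncard : ℝ) ≤ Nat.card Q * (2 : ℝ) ^ γ' := by
  classical
  have := Fintype.ofFinite Q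
  have fin : ∀ c, (B c : Set G).Finite := fun c => Set.finite_coe_iff.1 (hf c)
  have h1 : A ⊆ ↑(Finset.univ.biUnion fun c => (fin c).toFinset) := fun a ha => by
    obtain ⟨c, hc⟩ := hA a ha
    simp only [Finset.coe_biUnion, Set.mem_iUnion]
    exact ⟨c, by simp, by simpa using hc⟩
  have h2 := Set.ncard_le_ncard h1 (Finset.finite_toSet _)
  rw [Set.ncard_coe_finset] at h2
  have h3 := h2.trans Finset.card_biUnion_le
  have h4 : ∀ c, (((fin c).toFinset.card : ℕ) : ℝ) ≤ (2 : ℝ) ^ γ' := fun c => by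
    have := hf c
    rw [← Set.ncard_eq_toFinset_card _ (fin c), ← Nat.card_coe_set_eq]
    exact (Real.logb_le_iff_le_rpow (by norm_num)
      (by exact_mod_cast Nat.card_pos (α := B c))).1 (hB c)
  calc (A.ncard : ℝ) ≤ ∑ c : Q, (((fin c).toFinset.card : ℕ) : ℝ) := by exact_mod_cast h3
    _ ≤ ∑ _c : Q, (2 : ℝ) ^ γ' := Finset.sum_le_sum fun c _ => h4 c
    _ = _ := by simp [Nat.card_eq_fintype_card]

theorem gen (S : Setup G Γ) {b : ℕ} (hb : Crit G Γ b) (v : V) {j D : ℕ}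
    (h : 2 * (j + D) + 2 ≤ b) {γ γ' : ℝ} (h1 : ∀ u, lg (VZ G Γ D u) ≤ γ')
    (h2 : lg (VZ G Γ ((j : ℤ) + D) v) - lg (VZ G Γ ((j : ℤ) - 2) v) + γ' ≤ γ)
    {z n : G} {y : V} (hy : Nr Γ (j + D) v y) (hz : z ∈ Z0 G Γ y) (hn : n ∈ BZ G Γ j v) :
    Real.logb 2 ((cjs v (z * n * z⁻¹ * n⁻¹)).ncard : ℝ) ≤ γ := by
  obtain ⟨u, hu, huy⟩ := nr_split hy
  set T := VZ G Γ ((j : ℤ) + D) v with hT
  set U := VZ G Γ ((j : ℤ) - 2) v with hU
  have fT : Finite T := hb.finVZ S (by omega) v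
  have UT : U ≤ T := VZ_mono (by omega) v
  have fU : Finite U := fin_of_le UT
  have ab : T ≤ centralizer (T : Set G) := hb.VZ_comm (by omega) v
  have zT : z ∈ T := Z0_le_VZ hy (by push_cast; omega) hz
  have cT : ∀ g : G, g • v = v → g * z * g⁻¹ ∈ T := fun g hg => (eqvVZ S _).conj hg zT
  have ex : ∀ c : T ⧸ U.subgroupOf T, ∃ B : Subgroup G, Finite B ∧ lg B ≤ γ' ∧
      ∀ (g : G) (hg : g • v = v), (QuotientGroup.mk ⟨_, cT g hg⟩ : T ⧸ U.subgroupOf T) = c →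
        g * (z * n * z⁻¹ * n⁻¹) * g⁻¹ ∈ B := by
    intro c
    by_cases hc : ∃ (g : G) (hg : g • v = v),
        (QuotientGroup.mk ⟨_, cT g hg⟩ : T ⧸ U.subgroupOf T) = c
    · obtain ⟨g₀, hg₀, e₀⟩ := hc
      refine ⟨VZ G Γ D (g₀ • u), hb.finVZ S (by omega) _, h1 _, fun g hg e => ?_⟩
      have hw : (g₀ * z * g₀⁻¹)⁻¹ * (g * z * g⁻¹) ∈ U :=
        mem_subgroupOf.1 (QuotientGroup.eq.1 (e₀.trans e.symm))
      have hn' : g * n * g⁻¹ ∈ BZ G Γ j v := (eqvBZ S _).conj hg hn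
      have c1 := (BZ_cent (i := (j : ℤ) - 2) (by omega) v hn') _ hw
      have z0 : g₀ * z * g₀⁻¹ ∈ VZ G Γ D (g₀ • u) :=
        Z0_le_VZ (S.nr_smul g₀ huy) le_rfl (eqvZ0 S g₀ y z hz)
      have fx : (g * n * g⁻¹) • g₀ • u = g₀ • u :=
        BZ_fix hn' (by simpa [hg₀] using S.nr_smul g₀ hu) le_rfl
      have m := mul_mem z0 ((eqvVZ S _).conj fx (inv_mem z0))
      generalize g₀ * z * g₀⁻¹ = p at hw c1 m
      have e1 : g * (z * n * z⁻¹ * n⁻¹) * g⁻¹ =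
          p * (p⁻¹ * (g * z * g⁻¹) * (g * n * g⁻¹)) * (p⁻¹ * (g * z * g⁻¹))⁻¹ * p⁻¹ *
            (g * n * g⁻¹)⁻¹ := by group
      rw [e1, c1]
      convert m using 1
      group
    · refine ⟨⊥, inferInstance, ?_, fun g hg e => (hc ⟨g, hg, e⟩).elim⟩
      have : lg (⊥ : Subgroup G) = 0 := by simp [lg]
      rw [this]
      exact (lg_nonneg _).trans (h1 v)
  choose B b1 b2 b3 using ex
  have h3 := count (A := cjs v (z * n * z⁻¹ * n⁻¹)) B b1 b2 fun a ⟨g, hg, e⟩ =>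
    ⟨_, e ▸ b3 _ g hg rfl⟩
  have h4 : Nat.card U * Nat.card (T ⧸ U.subgroupOf T) = Nat.card T := by
    have := relIndex_mul_relIndex ⊥ U T bot_le UT
    rwa [relIndex_bot_left, relIndex_bot_left] at this
  have p1 : (0 : ℝ) < Nat.card U := by exact_mod_cast Nat.card_pos
  have p2 : (0 : ℝ) < Nat.card (T ⧸ U.subgroupOf T) := by exact_mod_cast Nat.card_pos
  have h5 : lg T = lg U + Real.logb 2 (Nat.card (T ⧸ U.subgroupOf T) : ℝ) := by
    unfold lg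
    rw [← h4, Nat.cast_mul, Real.logb_mul p1.ne' p2.ne']
  rcases Nat.eq_zero_or_pos (cjs v (z * n * z⁻¹ * n⁻¹)).ncard with e | e
  · have := lg_mono UT
    have := (lg_nonneg _).trans (h1 v)
    rw [e]
    simp only [Nat.cast_zero, Real.logb_zero]
    linarith
  · have h6 := Real.logb_le_logb_of_le (b := 2) (by norm_num) (by exact_mod_cast e) h3
    rw [Real.logb_mul p2.ne' (by positivity), Real.logb_rpow (by norm_num) (by norm_num)] at h6
    linarith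

end LemB

theorem lemB (S : Setup G Γ) {b : ℕ} (hb : Crit G Γ b) (v : V) {j D : ℕ}
    (h : 2 * (j + D) + 2 ≤ b) {γ γ' : ℝ} (h1 : ∀ u, lg (VZ G Γ D u) ≤ γ')
    (h2 : lg (VZ G Γ ((j : ℤ) + D) v) - lg (VZ G Γ ((j : ℤ) - 2) v) + γ' ≤ γ) :
    ⁅VZ G Γ ((j : ℤ) + D) v, BZ G Γ j v⁆ ≤ WW G γ v := by
  refine commutator_le.2 fun x hx n hn => ?_
  have ab := hb.VZ_comm (i := (j : ℤ) + D) (by omega) v
  have nv : n • v = v := BZ_fix0 hn (by omega)
  have cm : ∀ x ∈ VZ G Γ ((j : ℤ) + D) v, x * n * x⁻¹ * n⁻¹ ∈ VZ G Γ ((j : ℤ) + D) v :=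
    fun x hx => by
      have := mul_mem hx ((eqvVZ S _).conj nv (inv_mem hx))
      convert this using 1
      group
  rw [commutatorElement_def]
  induction hx using closure_induction with
  | mem z hz =>
    obtain ⟨k, y, hk, hy, hz⟩ := hz
    have hy' : Nr Γ (j + D) v y := hy.mono (by omega)
    refine subset_closure ⟨?_, LemB.gen S hb v h h1 h2 hy' hz hn⟩
    exact BZ_fix0 (hb.VZ_le_BZ (j := 0) (by omega) v
      (cm z (Z0_le_VZ hy' (by push_cast; omega) hz))) le_rfl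
  | one => simp
  | mul x y hx hy ihx ihy =>
    have c := ab (cm y hy) x hx
    have e : x * y * n * (x * y)⁻¹ * n⁻¹ = x * (y * n * y⁻¹ * n⁻¹) * (n * x⁻¹ * n⁻¹) := by group
    rw [e, c]
    convert mul_mem ihy ihx using 1
    group
  | inv x hx ih =>
    have c := ab (cm x hx) x hx
    have e : x⁻¹ * n * x⁻¹⁻¹ * n⁻¹ = (x * n * x⁻¹ * n⁻¹ * x)⁻¹ * x := by group
    rw [e, ← c]
    convert inv_mem ih using 1
    group

end Pool.Agent.Lib.MP_03ba20_al.W
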