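import Pool.Agent.Lib.MP_03ba20_al.W.Defs

/-! The two chain identity and the pairing step. -/

namespace Pool.Agent.Lib.MP_03ba20_al.W

open Subgroup MulAction

namespace Pair

theorem chains {L : Type*} [Lattice L] {ν : L → ℝ} (h : Val ν) {p : L → Prop}
    (hs : ∀ x y, p x → p y → p (x ⊔ y)) (a c : ℕ → L) (ha : Antitone a) (hc : Monotone c)
    (x : L) (h0 : p (c 0)) (q : ℕ) (hx : ∀ k ≤ q, x ≤ a k ⊔ c k)
    (hp : ∀ k < q, p (a k ⊓ c (k + 1))) : ∃ B, p B ∧ B ≤ c q ∧ x ≤ B ⊔ a q := by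
  induction q with
  | zero => exact ⟨c 0, h0, le_rfl, (hx 0 le_rfl).trans (sup_comm _ _).le⟩
  | succ q ih =>
    obtain ⟨B, h1, h2, h3⟩ := ih (fun k hk => hx k (by omega)) fun k hk => hp k (by omega)
    have h4 : B ≤ c (q + 1) := h2.trans (hc (Nat.le_succ q))
    refine ⟨B ⊔ a q ⊓ c (q + 1), hs _ _ h1 (hp q (by omega)), sup_le h4 inf_le_right, ?_⟩
    refine (le_inf h3 (hx _ le_rfl)).trans ((h.modular _ (h4.trans le_sup_right)).trans ?_)
    rw [sup_assoc]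
    refine sup_le_sup_left ?_ B
    rw [inf_comm, sup_comm (a q ⊓ _), inf_comm (a q)]
    exact h.modular _ (ha (Nat.le_succ q))

theorem two {L : Type*} [Lattice L] {ν : L → ℝ} (h : Val ν) {p : L → Prop}
    (hm : ∀ x y, x ≤ y → p y → p x) (hs : ∀ x y, p x → p y → p (x ⊔ y)) (m n t : ℕ) (ht : t ≤ n)
    (A C : ℤ → L) (hA : Monotone A) (hC : Monotone C) (l1 : ∀ i, A i ≤ C (i + m * n))
    (l2 : ∀ i, C i ≤ A (i + m * n)) (j : ℤ)
    (hp : ∀ k : ℤ, -(m : ℤ) - 1 ≤ k → k ≤ m →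
      p (A (j - k * t) ⊓ C (j + (k + 1) * ((n : ℤ) - t)))) : p (PP A C m n t j) := by
  have t0 : (0 : ℤ) ≤ t := by positivity
  have t1 : (0 : ℤ) ≤ (n : ℤ) - t := by omega
  obtain ⟨B, h1, -, h3⟩ := chains h hs (fun k => A (j - ((k : ℤ) - m) * t))
    (fun k => C (j + ((k : ℤ) - m) * ((n : ℤ) - t)))
    (fun k k' hk => hA (by
      have : (k : ℤ) ≤ k' := by exact_mod_cast hk
      nlinarith))
    (fun k k' hk => hC (by
      have : (k : ℤ) ≤ k' := by exact_mod_cast hk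
      nlinarith))
    (PP A C m n t j)
    (hm _ _ (le_inf ((l2 _).trans (hA (by push_cast; nlinarith))) (hC (by push_cast; nlinarith)))
      (hp (-(m : ℤ) - 1) le_rfl (by omega)))
    (2 * m) (fun k hk => Finset.inf'_le _ (Finset.mem_Icc.2 ⟨by omega, by omega⟩))
    fun k hk => hm _ _ (inf_le_inf_left _ (hC (by push_cast; nlinarith)))
      (hp ((k : ℤ) - m) (by omega) (by omega))
  refine hm _ _ h3 (hs _ _ h1 (hm _ _ ?_ (hp m (by omega) le_rfl)))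
  exact le_inf (hA (by push_cast; nlinarith)) ((l1 _).trans (hC (by push_cast; nlinarith)))

end Pair

theorem PAIR {L₁ L₂ : Type*} [Lattice L₁] [Lattice L₂] {ν₁ : L₁ → ℝ} {ν₂ : L₂ → ℝ}
    (h₁ : Val ν₁) (h₂ : Val ν₂) {r : L₁ → L₂ → Prop} (hr : Idl r) (m n t : ℕ) (ht : t ≤ n)
    (A C : ℤ → L₁) (A' C' : ℤ → L₂) (hA : Monotone A) (hC : Monotone C) (hA' : Monotone A')
    (hC' : Monotone C') (l1 : ∀ i, A i ≤ C (i + m * n)) (l2 : ∀ i, C i ≤ A (i + m * n))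
    (l1' : ∀ i, A' i ≤ C' (i + m * n)) (l2' : ∀ i, C' i ≤ A' (i + m * n))
    {f f₀ : L₁} {g g₀ : L₂} (hf : f₀ ≤ f) (j j' D : ℤ) (hD : j + j' + n ≤ D)
    (e : f ≤ f₀ ⊔ PP A C m n t j) (e' : g ≤ g₀ ⊔ PP A' C' m n t j')
    (r1 : r f₀ g) (r2 : r f g₀)
    (r3 : ∀ J : ℤ, -j' - (m + 1) * n ≤ J → J ≤ -j' + (m + 1) * n →
      r (A (J + D)) (A' (-J)) ∧ r (C (J + D)) (C' (-J))) : r f g := by
  have t0 : (0 : ℤ) ≤ t := by positivity
  have t1 : (0 : ℤ) ≤ (n : ℤ) - t := by omega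
  have m0 : (0 : ℤ) ≤ m := by positivity
  have hP : r (PP A C m n t j) (PP A' C' m n t j') :=
    Pair.two h₁ (p := fun x => r x (PP A' C' m n t j')) (fun _ _ h => hr.mono h le_rfl)
      (fun _ _ => hr.supl) m n t ht A C hA hC l1 l2 j fun k _ _ =>
      Pair.two h₂ (p := fun y => r _ y) (fun _ _ h => hr.mono le_rfl h)
        (fun _ _ => hr.supr) m n t ht A' C' hA' hC' l1' l2' j' fun k' a1 a2 => by
        rcases le_or_gt 0 (k + k') with h | h
        · refine hr.mono (inf_le_left.trans (hA ?_)) (inf_le_left.trans (hA' ?_))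
            (r3 (-j' + k' * t) ?_ ?_).1 <;> nlinarith
        · have h' : k + k' + 1 ≤ 0 := by omega
          refine hr.mono (inf_le_right.trans (hC ?_)) (inf_le_right.trans (hC' ?_))
            (r3 (-j' - (k' + 1) * ((n : ℤ) - t)) ?_ ?_).2 <;> nlinarith
  refine hr.mono ((le_inf e le_rfl).trans (h₁.modular _ hf)) le_rfl (hr.supl r1 ?_)
  exact hr.mono le_rfl e' (hr.supr (hr.mono inf_le_right le_rfl r2) (hr.mono inf_le_left le_rfl hP))

end Pool.Agent.Lib.MP_03ba20_al.W
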