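import Pool.Agent.Lib.MP_03ba20_al.W.Nr

/-! Orbit lengths along walks. -/

namespace Pool.Agent.Lib.MP_03ba20_al.W

open Subgroup MulAction

variable {G V : Type*} [Group G] [MulAction G V] {Γ : SimpleGraph V}

namespace Path

theorem fin_orb (S : Setup G Γ) (x w : V) :
    ({y | ∃ g : G, g • x = x ∧ g • w = y} : Set V).Finite := by
  have := S.fin x
  exact (Set.finite_range fun g : stabilizer G x => g.1 • w).subset
    fun _ ⟨g, h1, h2⟩ => ⟨⟨g, h1⟩, h2⟩

theorem pos_orb (S : Setup G Γ) (x w : V) :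
    0 < ({y | ∃ g : G, g • x = x ∧ g • w = y} : Set V).ncard :=
  (Set.ncard_pos (fin_orb S x w)).2 ⟨w, 1, one_smul _ _, one_smul _ _⟩

theorem om_self (x : V) : om G x x = 0 := by
  have : ({y | ∃ g : G, g • x = x ∧ g • x = y} : Set V) = {x} := by
    ext y
    exact ⟨fun ⟨g, h1, h2⟩ => h2.symm.trans h1, fun h => ⟨1, one_smul _ _, (one_smul _ _).trans h.symm⟩⟩
  simp [om, this]

theorem om_smul (k : G) (x w : V) : om G (k • x) (k • w) = om G x w := by
  have : ({y | ∃ g : G, g • k • x = k • x ∧ g • k • w = y} : Set V) =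
      (k • ·) '' {y | ∃ g : G, g • x = x ∧ g • w = y} := by
    ext y
    constructor
    · rintro ⟨g, h1, rfl⟩
      exact ⟨_, ⟨k⁻¹ * g * k, by rw [mul_smul, mul_smul, h1, inv_smul_smul], rfl⟩, by
        simp [mul_smul]⟩
    · rintro ⟨_, ⟨g, h1, rfl⟩, rfl⟩
      exact ⟨k * g * k⁻¹, by simp [mul_smul, h1], by simp [mul_smul]⟩
  unfold om
  rw [this, Set.ncard_image_of_injective _ (MulAction.injective k)]

theorem walk {n : ℕ} {a c : V} (h : Nr Γ n a c) :
    ∃ y : ℕ → V, y 0 = a ∧ (∀ s, Nr Γ 1 (y s) (y (s + 1))) ∧ y n = c := by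
  induction h with
  | refl n a => exact ⟨fun _ => a, rfl, fun _ => .refl _ _, rfl⟩
  | @step n a c d _ hcd ih =>
    obtain ⟨y, h0, h1, h2⟩ := ih
    refine ⟨fun s => if s ≤ n then y s else d, by simpa using h0, fun s => ?_, by simp⟩
    rcases lt_trichotomy s n with h | rfl | h
    · simpa only [if_pos h.le, if_pos (Nat.succ_le_of_lt h)] using h1 s
    · simpa only [if_pos le_rfl, if_neg (Nat.not_succ_le_self s), h2] using (Nr.refl 0 c).step hcd
    · simpa only [if_neg (not_le.2 h), if_neg (not_le.2 (Nat.lt_succ_of_lt h))] using Nr.refl 1 d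

end Path

theorem om_sub (S : Setup G Γ) (x y z : V) : om G x z ≤ om G x y + om G y z := by
  classical
  have h0 : ∀ y' : V, ∃ g : G, (∃ g : G, g • x = x ∧ g • y = y') → g • x = x ∧ g • y = y' :=
    fun y' => by
      by_cases h : ∃ g : G, g • x = x ∧ g • y = y'
      · exact ⟨h.choose, fun _ => h.choose_spec⟩
      · exact ⟨1, fun h' => absurd h' h⟩
  choose k hk using h0
  have h1 : ({w | ∃ g : G, g • x = x ∧ g • z = w} : Set V) ⊆ (fun p : V × V => k p.1 • p.2) ''
      ({w | ∃ g : G, g • x = x ∧ g • y = w} ×ˢ {w | ∃ g : G, g • y = y ∧ g • z = w}) := by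
    rintro _ ⟨g, hg, rfl⟩
    obtain ⟨-, e⟩ := hk (g • y) ⟨g, hg, rfl⟩
    exact ⟨(g • y, ((k (g • y))⁻¹ * g) • z), ⟨⟨g, hg, rfl⟩, _, by
      rw [mul_smul, inv_smul_eq_iff, e], rfl⟩, by simp [mul_smul]⟩
  have hf := (Path.fin_orb S x y).prod (Path.fin_orb S y z)
  have h2 := (Set.ncard_le_ncard h1 (hf.image _)).trans (Set.ncard_image_le hf)
  rw [Set.ncard_prod] at h2
  have a1 := Path.pos_orb S x y
  have a2 := Path.pos_orb S y z
  have a3 := Path.pos_orb S x z
  unfold om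
  rw [← Real.logb_mul (by positivity) (by positivity)]
  exact Real.logb_le_logb_of_le (by norm_num) (by positivity) (by exact_mod_cast h2)

theorem om_le (S : Setup G Γ) {d : ℕ} (hd : Deg Γ d) {n : ℕ} {x y : V} (h : Nr Γ n x y) :
    om G x y ≤ kap d * n := by
  have h1 : ({w | ∃ g : G, g • x = x ∧ g • y = w} : Set V) ⊆ {w | Nr Γ n x w} := by
    rintro _ ⟨g, hg, rfl⟩
    have := S.nr_smul g h
    rwa [hg] at this
  have h2 := (Set.ncard_le_ncard h1 (finite_nr hd.fin x n)).trans (ncard_nr hd x n)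
  have a1 := Path.pos_orb S x y
  have h3 : om G x y ≤ Real.logb 2 (((d : ℝ) + 1) ^ n) :=
    Real.logb_le_logb_of_le (by norm_num) (by positivity) (by exact_mod_cast h2)
  rw [Real.logb_pow] at h3
  have h4 : (d : ℝ) + 1 ≤ ((d : ℝ) + 1) ^ 5 := le_self_pow₀ (by simp) (by norm_num)
  have h5 : Real.logb 2 ((d : ℝ) + 1) ≤ kap d := by
    have := logb_succ_le d
    have : (0 : ℝ) ≤ d := by positivity
    unfold kap; linarith
  rw [mul_comm]
  exact h3.trans (mul_le_mul_of_nonneg_left h5 (by positivity))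

theorem path (S : Setup G Γ) {κ : ℝ} (hκ : 1 ≤ κ) {b n : ℕ} (hn : 1 ≤ n) (hnb : n ≤ b)
    (hκb : 2 * κ ≤ b) (h4 : ∃ x w, Nr Γ (b + 1) x w ∧ (b : ℝ) ≤ κ * (om G x w + 1)) (x : V) :
    ∃ y : ℕ → V, y 0 = x ∧ (∀ s, Nr Γ 1 (y s) (y (s + 1))) ∧
      1 / (6 * κ) * n ≤ om G (y 0) (y n) := by
  have key : ∃ a c, Nr Γ n a c ∧ 1 / (6 * κ) * n ≤ om G a c := by
    by_contra hc
    have h1 : ∀ a c, Nr Γ n a c → om G a c ≤ 1 / (6 * κ) * n := fun a c h =>
      le_of_not_ge fun h' => hc ⟨a, c, h, h'⟩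
    have h2 : ∀ (q : ℕ) (a c : V), Nr Γ (q * n) a c → om G a c ≤ q * (1 / (6 * κ) * n) := by
      intro q
      induction q with
      | zero =>
        intro a c h
        rw [zero_mul] at h
        cases h
        simp [Path.om_self]
      | succ q ih =>
        intro a c h
        rw [Nat.succ_mul] at h
        obtain ⟨z, e1, e2⟩ := nr_split h
        have := om_sub S a z c
        have := ih a z e1
        have := h1 z c e2
        push_cast; linarith
    obtain ⟨a, c, h, h'⟩ := h4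
    have e1 : b + 1 ≤ (b / n + 1) * n := by
      have := Nat.lt_div_mul_add (a := b) hn
      rw [Nat.succ_mul]; omega
    have e2 : (b / n + 1) * n ≤ 2 * b := by
      have := Nat.div_mul_le_self b n
      rw [Nat.succ_mul]; omega
    have e3 : (((b / n + 1 : ℕ) : ℝ)) * n ≤ 2 * b := by exact_mod_cast e2
    have h3 := h2 _ a c (h.mono e1)
    have h5 : κ * om G a c ≤ ((b / n + 1 : ℕ) : ℝ) * n / 6 := by
      refine (mul_le_mul_of_nonneg_left h3 (by linarith)).trans_eq ?_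
      field_simp
    linarith
  obtain ⟨a, c, h, h'⟩ := key
  obtain ⟨g, rfl⟩ := S.trans a x
  obtain ⟨y, e0, e1, e2⟩ := Path.walk (S.nr_smul g h)
  exact ⟨y, e0, e1, by rw [e0, e2, Path.om_smul]; exact h'⟩

end Pool.Agent.Lib.MP_03ba20_al.W
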