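import Pool.Agent.Lib.MP_03ba20_al.W.CD
import Pool.Agent.Lib.MP_03ba20_al.W.Pair
import Pool.Agent.Lib.MP_03ba20_al.W.Path
import Pool.Agent.Lib.MP_03ba20_al.W.Gamma
import Pool.Agent.Lib.MP_03ba20_al.W.Ival
import Pool.Agent.Lib.MP_03ba20_al.W.LemA
import Pool.Agent.Lib.MP_03ba20_al.W.LemB
import Pool.Agent.Lib.MP_03ba20_al.W.Fin
import Pool.Agent.Lib.MP_03ba20_al.WReg

namespace Pool.Agent.Lib.MP_03ba20_al.W.H2

open Subgroup MulAction

theorem val_prod {L₁ L₂ : Type*} [Lattice L₁] [Lattice L₂] {ν₁ : L₁ → ℝ} {ν₂ : L₂ → ℝ}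
    (h₁ : Val ν₁) (h₂ : Val ν₂) : Val fun p : L₁ × L₂ => ν₁ p.1 + ν₂ p.2 where
  add x y := by
    have a := h₁.add x.1 y.1
    have b := h₂.add x.2 y.2
    simp only [Prod.fst_sup, Prod.snd_sup, Prod.fst_inf, Prod.snd_inf]
    linarith
  gap x y h := by
    rcases Prod.lt_iff.1 h with ⟨a, b⟩ | ⟨a, b⟩
    · linarith [h₁.gap _ _ a, h₂.mono b]
    · linarith [h₁.mono a, h₂.gap _ _ b]

theorem PP_fst {L₁ L₂ : Type*} [Lattice L₁] [Lattice L₂] (A C : ℤ → L₁ × L₂) (m n t : ℕ) (j : ℤ) :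
    (PP A C m n t j).1 ≤ PP (fun i => (A i).1) (fun i => (C i).1) m n t j :=
  Finset.le_inf' _ _ fun _ hk =>
    (Finset.inf'_le (fun k => A (j - k * t) ⊔ C (j + k * ((n : ℤ) - t))) hk).1

theorem PP_snd {L₁ L₂ : Type*} [Lattice L₁] [Lattice L₂] (A C : ℤ → L₁ × L₂) (m n t : ℕ) (j : ℤ) :
    (PP A C m n t j).2 ≤ PP (fun i => (A i).2) (fun i => (C i).2) m n t j :=
  Finset.le_inf' _ _ fun _ hk =>
    (Finset.inf'_le (fun k => A (j - k * t) ⊔ C (j + k * ((n : ℤ) - t))) hk).2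

theorem lip1 {L : Type*} [Lattice L] {F : ℕ → ℤ → L} (h : ∀ s i, F s i ≤ F (s + 1) (i + 1))
    (a k : ℕ) (i : ℤ) : F a i ≤ F (a + k) (i + k) := by
  induction k with
  | zero => simp
  | succ k ih =>
    refine ih.trans ?_
    have := h (a + k) (i + k)
    rwa [show i + ((k + 1 : ℕ) : ℤ) = i + k + 1 by push_cast; ring]

theorem lip2 {L : Type*} [Lattice L] {F : ℕ → ℤ → L} (h : ∀ s i, F (s + 1) i ≤ F s (i + 1))
    (a k : ℕ) (i : ℤ) : F (a + k) i ≤ F a (i + k) := by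
  induction k generalizing i with
  | zero => simp
  | succ k ih =>
    refine (h (a + k) i).trans ?_
    have := ih (i + 1)
    rwa [show i + ((k + 1 : ℕ) : ℤ) = i + 1 + k by push_cast; ring]

theorem cdp {L₁ L₂ : Type*} [Lattice L₁] [Lattice L₂] {ν₁ : L₁ → ℝ} {ν₂ : L₂ → ℝ}
    (h₁ : Val ν₁) (h₂ : Val ν₂) {Θ : ℝ} (hΘ0 : 0 < Θ)
    (hΘ : ∀ x x' y y', ν₁ x - ν₁ x' + (ν₂ y - ν₂ y') ≤ Θ)
    (F : ℕ → ℤ → L₁) (F' : ℕ → ℤ → L₂) (hF : ∀ s, Monotone (F s)) (hF' : ∀ s, Monotone (F' s))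
    (a1 : ∀ s i, F s i ≤ F (s + 1) (i + 1)) (a2 : ∀ s i, F (s + 1) i ≤ F s (i + 1))
    (b1 : ∀ s i, F' s i ≤ F' (s + 1) (i + 1)) (b2 : ∀ s i, F' (s + 1) i ≤ F' s (i + 1))
    (ω : ℕ → ℕ → ℝ) (hω : ∀ a b c, ω a c ≤ ω a b + ω b c)
    (m l R : ℕ) (hm : 1 ≤ m) (hl : 1 ≤ l) (κ ε δ : ℝ) (hκ : 0 ≤ κ) (hε : 0 < ε) (hδ : 0 < δ)
    (hωκ : ∀ a n, ω a (a + n) ≤ κ * n) (hR : 60 * m ^ 2 * κ < ε * δ * R)
    (h0 : ε * (m * (l * m ^ R) : ℕ) ≤ ω 0 (m * (l * m ^ R))) (I : Finset ℤ)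
    (hI : 2 * (δ * Θ) < I.card) :
    ∃ n a : ℕ, l ≤ n ∧ a + m * n ≤ m * (l * m ^ R) ∧ ε / 2 * (m * n : ℕ) ≤ ω a (a + m * n) ∧
      ∀ u, a ≤ u → u ≤ a + m * n → ∃ i ∈ I, ∀ r : L₁ → L₂ → Prop, Idl r →
        r (F u (i - 2)) (F' u (-i)) → r (F u (i + 3)) (F' u (-i - 5)) →
        (∀ J : ℤ, i - (m + 3) * n ≤ J → J ≤ i + (m - 1) * n →
          r (F a (J + (5 * n + 3))) (F' a (-J)) ∧
            r (F (a + m * n) (J + (5 * n + 3))) (F' (a + m * n) (-J))) →
        r (F u (i + 3)) (F' u (-i)) := by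
  classical
  obtain ⟨n, a, c1, c2, c3, c4⟩ := CD (val_prod h₁ h₂) hΘ0
    (fun x y => by linarith [hΘ x.1 y.1 x.2 y.2]) (fun s i => (F s i, F' s i))
    (fun s i j hij => ⟨hF s hij, hF' s hij⟩) (fun s i => ⟨a1 s i, b1 s i⟩)
    (fun s i => ⟨a2 s i, b2 s i⟩) ω hω m l R hm hl κ ε δ hκ hε hδ hωκ hR h0
    (I.image (fun i => i + 3) ∪ I.image fun i => -i)
  refine ⟨n, a, c1, c2, c3, fun u u1 u2 => ?_⟩
  obtain ⟨t, ht, hc⟩ := c4 u u1 u2
  obtain ⟨Bd, hBd, hc⟩ : ∃ Bd : Finset ℤ,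
      (∀ i ∈ (I.image (fun i => i + 3) ∪ I.image fun i => -i), i ∉ Bd → (F u i, F' u i) ≤
        (F u (i - 5), F' u (i - 5)) ⊔ PP (fun i => (F a i, F' a i))
          (fun i => (F (a + m * n) i, F' (a + m * n) i)) m n t (i + 2 * n)) ∧
      (Bd.card : ℝ) ≤ δ * Θ :=
    ⟨_, fun i hi h => by_contra fun h' => h ((@Finset.mem_filter _ _ (_) _ _).2 ⟨hi, h'⟩), hc⟩
  have hex : ∃ i ∈ I, i + 3 ∉ Bd ∧ -i ∉ Bd := by
    by_contra hn
    push Not at hn
    have hs : I ⊆ Bd.image (fun i => i - 3) ∪ Bd.image fun i => -i := fun i hi => by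
      by_cases e : i + 3 ∈ Bd
      · exact Finset.mem_union_left _ (Finset.mem_image.2 ⟨_, e, by ring⟩)
      · exact Finset.mem_union_right _ (Finset.mem_image.2 ⟨_, hn i hi e, by ring⟩)
    have h1 := (Finset.card_le_card hs).trans (Finset.card_union_le _ _)
    have h2 : (Bd.image fun i => i - 3).card ≤ Bd.card := Finset.card_image_le
    have h3 : (Bd.image fun i => -i).card ≤ Bd.card := Finset.card_image_le
    have h4 : (I.card : ℝ) ≤ Bd.card + Bd.card := by exact_mod_cast (by omega)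
    linarith
  obtain ⟨i, hi, e1, e2⟩ := hex
  have f1 := (hBd _ (Finset.mem_union_left _ (Finset.mem_image_of_mem _ hi)) e1).1
  have f2 := (hBd _ (Finset.mem_union_right _ (Finset.mem_image_of_mem _ hi)) e2).2
  refine ⟨i, hi, fun r hr r1 r2 r3 => ?_⟩
  refine PAIR h₁ h₂ hr m n t ht (F a) (F (a + m * n)) (F' a) (F' (a + m * n)) (hF _) (hF _)
    (hF' _) (hF' _) (fun j => by simpa using lip1 a1 a (m * n) j)
    (fun j => by simpa using lip2 a2 a (m * n) j) (fun j => by simpa using lip1 b1 a (m * n) j)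
    (fun j => by simpa using lip2 b2 a (m * n) j) (f₀ := F u (i - 2)) (g₀ := F' u (-i - 5))
    (hF u (by omega)) (i + 3 + 2 * n) (-i + 2 * n) (5 * n + 3) (by omega) ?_ ?_ r1 r2
    fun J J1 J2 => r3 J (by linarith) (by linarith)
  · refine f1.trans (sup_le_sup (le_of_eq ?_) (PP_fst _ _ m n t _))
    change F u (i + 3 - 5) = _
    congr 1
    ring
  · exact f2.trans (sup_le_sup le_rfl (PP_snd _ _ m n t _))

theorem light (Ph : ℤ → ℝ) (p : ℤ) (n : ℕ) (hn : 1 ≤ n) (K : ℝ) (hK : 0 ≤ K)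
    (mono : ∀ i j, p - 2 ≤ i → i ≤ j → j ≤ p + 2 * n + 2 → Ph i ≤ Ph j)
    (tot : Ph (p + 2 * n + 2) - Ph (p - 2) ≤ K * n) :
    ∃ I : Finset ℤ, n < I.card ∧ ∀ i ∈ I, p ≤ i ∧ i < p + 2 * n ∧ Ph (i + 3) - Ph (i - 2) ≤ 5 * K := by
  classical
  have tel : ∀ k : ℕ, ∑ i ∈ Finset.range k, (Ph (p + i + 3) - Ph (p + i - 2)) =
      Ph (p + k - 2) + Ph (p + k - 1) + Ph (p + k) + Ph (p + k + 1) + Ph (p + k + 2) -
        (Ph (p - 2) + Ph (p - 1) + Ph p + Ph (p + 1) + Ph (p + 2)) := by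
    intro k
    induction k with
    | zero => simp
    | succ k ih =>
      rw [Finset.sum_range_succ, ih]
      push_cast
      rw [show p + (k + 1) - 2 = p + k - 1 by ring, show p + (k + 1) - 1 = p + k by ring,
        show p + (k + 1) + 1 = p + k + 2 by ring, show p + (k + 1) + 2 = p + k + 3 by ring,
        show p + (k + 1) = p + k + 1 by ring]
      ring
  have hs : ∑ i ∈ Finset.range (2 * n), (Ph (p + i + 3) - Ph (p + i - 2)) ≤ 5 * K * n := by
    rw [tel]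
    push_cast
    have a1 := mono (p + 2 * n - 2) (p + 2 * n + 2) (by omega) (by omega) le_rfl
    have a2 := mono (p + 2 * n - 1) (p + 2 * n + 2) (by omega) (by omega) le_rfl
    have a3 := mono (p + 2 * n) (p + 2 * n + 2) (by omega) (by omega) le_rfl
    have a4 := mono (p + 2 * n + 1) (p + 2 * n + 2) (by omega) (by omega) le_rfl
    have b1 := mono (p - 2) (p - 1) le_rfl (by omega) (by omega)
    have b2 := mono (p - 2) p le_rfl (by omega) (by omega)
    have b3 := mono (p - 2) (p + 1) le_rfl (by omega) (by omega)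
    have b4 := mono (p - 2) (p + 2) le_rfl (by omega) (by omega)
    linarith
  let Q : ℕ → Prop := fun i => Ph (p + i + 3) - Ph (p + i - 2) ≤ 5 * K
  have hc := Finset.card_filter_add_card_filter_not (s := Finset.range (2 * n)) Q
  rw [Finset.card_range] at hc
  have hH : ((Finset.range (2 * n)).filter fun i => ¬ Q i).card < n := by
    by_contra hge
    push Not at hge
    have h1 : ∑ i ∈ (Finset.range (2 * n)).filter (fun i => ¬ Q i),
        (Ph (p + i + 3) - Ph (p + i - 2)) ≤ 5 * K * n :=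
      (Finset.sum_le_sum_of_subset_of_nonneg (Finset.filter_subset _ _) fun i hi _ => by
        have := Finset.mem_range.1 hi
        have := mono (p + i - 2) (p + i + 3) (by omega) (by omega) (by omega)
        linarith).trans hs
    have h2 := Finset.sum_lt_sum_of_nonempty (f := fun _ => 5 * K)
      (g := fun i : ℕ => Ph (p + i + 3) - Ph (p + i - 2))
      (Finset.card_pos.1 (lt_of_lt_of_le hn hge)) fun i hi => not_le.1 (Finset.mem_filter.1 hi).2
    rw [Finset.sum_const, nsmul_eq_mul] at h2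
    have h3 : (n : ℝ) ≤ ((Finset.range (2 * n)).filter fun i => ¬ Q i).card := by
      exact_mod_cast hge
    nlinarith
  refine ⟨((Finset.range (2 * n)).filter Q).image fun i : ℕ => p + i, ?_, fun i hi => ?_⟩
  · rw [Finset.card_image_of_injective _ fun a b h => by simpa using h]
    omega
  · obtain ⟨k, hk, rfl⟩ := Finset.mem_image.1 hi
    obtain ⟨k1, k2⟩ := Finset.mem_filter.1 hk
    have := Finset.mem_range.1 k1
    exact ⟨by omega, by omega, k2⟩

variable {G V : Type*} [Group G] [MulAction G V] {Γ : SimpleGraph V}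

/-- the trace of `X` in the interval below `T`. -/
def cut (T N X : Subgroup G) : Set.Icc (T ⊓ centralizer (N : Set G)) T :=
  ⟨X ⊓ T ⊔ T ⊓ centralizer (N : Set G), le_sup_right, sup_le inf_le_right inf_le_left⟩

theorem cut_mono (T N : Subgroup G) {X Y : Subgroup G} (h : X ≤ Y) : cut T N X ≤ cut T N Y :=
  sup_le_sup_right (inf_le_inf_right _ h) _

theorem le_cut {T X : Subgroup G} (N : Subgroup G) (h : X ≤ T) : X ≤ (cut T N X).1 :=
  (le_inf le_rfl h).trans le_sup_left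

theorem comm_le_of_cent {A Y N : Subgroup G} (h : A ≤ centralizer (N : Set G)) (hY : Y ≤ N)
    (Z : Subgroup G) : ⁅A, Y⁆ ≤ Z := by
  rw [commutator_eq_bot_iff_le_centralizer.2 (h.trans (centralizer_le hY))]
  exact bot_le

theorem comm_le_of_cent' {A Y T : Subgroup G} (h : Y ≤ centralizer (T : Set G)) (hA : A ≤ T)
    (Z : Subgroup G) : ⁅A, Y⁆ ≤ Z := by
  rw [commutator_comm]
  exact comm_le_of_cent h hA Z

theorem comm_cut {T N X Y Z : Subgroup G} (h : Prg T N) (hZ : ⁅X ⊓ T, Y ⊓ N⁆ ≤ Z) :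
    ⁅(cut T N X).1, (cut N T Y).1⁆ ≤ Z :=
  (h.supl inf_le_right inf_le_left (cut N T Y).2.2).trans (sup_le
    ((h.supr inf_le_right inf_le_right inf_le_left).trans
      (sup_le hZ (comm_le_of_cent' inf_le_right inf_le_right Z)))
    (comm_le_of_cent inf_le_right (cut N T Y).2.2 Z))

theorem idl_comm {T N : Subgroup G} (h : Prg T N) (Z : Subgroup G) :
    Idl fun (x : Set.Icc (T ⊓ centralizer (N : Set G)) T)
      (y : Set.Icc (N ⊓ centralizer (T : Set G)) N) => ⁅x.1, y.1⁆ ≤ Z where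
  mono a b c := (commutator_mono a b).trans c
  supl {x x' y} a b := (h.supl x.2.2 x'.2.2 y.2.2).trans (sup_le a b)
  supr {x y y'} a b := (h.supr x.2.2 y.2.2 y'.2.2).trans (sup_le a b)

theorem comm_le_left {T N : Subgroup G} (h : N ≤ normalizer (T : Set G)) : ⁅T, N⁆ ≤ T :=
  commutator_le.2 fun a ha b hb => by
    have := mul_mem ha (nrm_conj (h hb) (inv_mem ha))
    rw [commutatorElement_def]
    simpa [mul_assoc] using this

variable (G Γ) in
/-- the potential. -/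
noncomputable def Ph (x : V) (j : ℤ) : ℝ := lg (VZ G Γ j x) - lg (BZ G Γ j x)

theorem Ph_V (S : Setup G Γ) (x : V) {i j : ℤ} (h0 : 0 ≤ i) (hij : i ≤ j) (u : V) :
    lg (VZ G Γ j u) - lg (VZ G Γ i u) ≤ Ph G Γ x j - Ph G Γ x i := by
  have := finBZ S h0 x
  have := lg_mono (BZ_anti (G := G) (Γ := Γ) hij x)
  rw [lg_eqv (eqvVZ S j) S u x, lg_eqv (eqvVZ S i) S u x]
  unfold Ph
  linarith

theorem Ph_mono (S : Setup G Γ) {b : ℕ} (hb : Crit G Γ b) (x : V) {i j : ℤ} (h0 : 0 ≤ i)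
    (hij : i ≤ j) (hj : j ≤ b) : Ph G Γ x i ≤ Ph G Γ x j := by
  have := hb.finVZ S hj x
  have := lg_mono (VZ_mono (G := G) (Γ := Γ) hij x)
  linarith [Ph_V S x h0 hij x]

theorem F1 (S : Setup G Γ) {d : ℕ} (hd : Deg Γ d) {b : ℕ} (hb : Crit G Γ b) (u : V) {k : ℕ}
    (hk : k ≤ b) : lg (VZ G Γ k u) ≤ kap d * (k + 1) :=
  have := finBZ S (i := (b : ℤ) - k) (by omega) u
  (lg_mono (hb.VZ_le_BZ (by omega) u)).trans (F0 S hd hb u hk)

theorem lemB' (S : Setup G Γ) {d : ℕ} (hd : Deg Γ d) {b : ℕ} (hb : Crit G Γ b) (x v : V) {j : ℤ}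
    {D : ℕ} (hj : 2 ≤ j) (h : 2 * (j + D) + 2 ≤ b) {γ : ℝ}
    (h2 : Ph G Γ x (j + D) - Ph G Γ x (j - 2) + kap d * (D + 1) ≤ γ) :
    ⁅VZ G Γ (j + D) v, BZ G Γ j v⁆ ≤ WW G γ v := by
  obtain ⟨j, rfl⟩ := Int.eq_ofNat_of_zero_le (show 0 ≤ j by omega)
  exact lemB S hb v (by omega) (fun u => F1 S hd hb u (by omega))
    (by linarith [Ph_V S x (i := (j : ℤ) - 2) (j := (j : ℤ) + D) (by omega) (by omega) v])

/-- the absolute bound for the light layers. -/
noncomputable def lam (d : ℕ) (C : ℝ) : ℝ := kap d * (110 * C + kap d * 4 + 1)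

theorem win (S : Setup G Γ) {d : ℕ} (hd : Deg Γ d) {b : ℕ} (hb : Crit G Γ b) (x : V) {C : ℝ}
    (hC : kap d ≤ C) {lo : ℤ} {l m R : ℕ} (hlo : 0 ≤ lo) (hm : 1 ≤ m) (hl : 1 ≤ l) {n0 : ℕ}
    (hn0 : n0 = m * (l * m ^ R)) (hhi : 2 * (lo + 20 * n0) + 2 ≤ b) (hκb : 2 * kap d ≤ b)
    (hΦ : ∀ i j : ℤ, lo ≤ i → i ≤ j → j ≤ lo + 20 * n0 →
      Ph G Γ x j - Ph G Γ x i ≤ C * ((j : ℝ) - i + 2 * l))
    (hP : Prg (VZ G Γ (lo + 20 * n0 - 2) x) (BZ G Γ (lo + 2) x))
    (hR : 60 * m ^ 2 * kap d < 1 / (6 * kap d) * (1 / (44 * C)) * R) :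
    1 / (6 * kap d) / 2 * m ≤ lam d C * (2 : ℝ) ^ lam d C * (1 + 44 * kap d * C) := by
  have hκ := one_le_kap d
  have hC0 : 0 < C := by linarith
  have hln : l ≤ n0 := by
    rw [hn0]
    exact (Nat.le_mul_of_pos_right _ (pow_pos hm _)).trans (Nat.le_mul_of_pos_left _ hm)
  have hln' : (l : ℝ) ≤ n0 := by exact_mod_cast hln
  have hl' : (1 : ℝ) ≤ l := by exact_mod_cast hl
  set T := VZ G Γ (lo + 20 * n0 - 2) x with hT
  set N := BZ G Γ (lo + 2) x with hN
  have fT : Finite T := hb.finVZ S (by omega) x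
  have fN : Finite N := finBZ S (by omega) x
  have tot : Ph G Γ x (lo + 20 * n0) - Ph G Γ x lo ≤ 22 * C * n0 := by
    refine (hΦ _ _ le_rfl (by omega) le_rfl).trans ?_
    push_cast
    nlinarith
  obtain ⟨y, y0, hy, hom⟩ := path S hκ (n := n0) (by omega) (by omega) hκb
    ⟨x, F4 S hd hb x⟩ x
  obtain ⟨I, hI, hI'⟩ := light (Ph G Γ x) (lo + 6 * n0) n0 (by omega) (22 * C) (by positivity)
    (fun i j a e c => Ph_mono S hb x (by omega) e (by omega)) (by
      have a := Ph_mono S hb x (i := lo) (j := lo + 6 * n0 - 2) hlo (by omega) (by omega)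
      have c := Ph_mono S hb x (i := lo + 6 * n0 + 2 * n0 + 2) (j := lo + 20 * n0) (by omega)
        (by omega) (by omega)
      linarith)
  obtain ⟨n, a, c1, c2, c3, c4⟩ := cdp hP.val₁ hP.val₂ (Θ := 22 * C * n0) (by
      have : (0 : ℝ) < n0 := by linarith
      positivity)
    (fun X X' Y Y' => by
      have := fin_of_le X'.2.2
      have := fin_of_le Y'.2.2
      have := hb.finVZ S (i := lo + 20 * n0) (by omega) x
      have := finBZ S hlo x
      have a1 : lg X.1 ≤ lg (VZ G Γ (lo + 20 * n0) x) := lg_mono (X.2.2.trans (VZ_mono (by omega) x))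
      have a2 : lg (VZ G Γ lo x) ≤ lg X'.1 := lg_mono ((le_inf (VZ_mono (by omega) x)
        (le_centralizer_iff.1 (BZ_cent le_rfl x))).trans X'.2.1)
      have a3 : lg Y.1 ≤ lg (BZ G Γ lo x) := lg_mono (Y.2.2.trans (BZ_anti (by omega) x))
      have a4 : lg (BZ G Γ (lo + 20 * n0) x) ≤ lg Y'.1 := lg_mono ((le_inf (BZ_anti (by omega) x)
        (BZ_cent (by omega) x)).trans Y'.2.1)
      unfold Ph at tot
      linarith)
    (fun s i => cut T N (VZ G Γ i (y s))) (fun s i => cut N T (BZ G Γ (-i) (y s)))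
    (fun s i j h => cut_mono _ _ (VZ_mono h _)) (fun s i j h => cut_mono _ _ (BZ_anti (by omega) _))
    (fun s i => cut_mono _ _ (VZ_lip (hy s).symm (by omega)))
    (fun s i => cut_mono _ _ (VZ_lip (hy s) (by omega)))
    (fun s i => cut_mono _ _ (BZ_lip (hy s) (by omega)))
    (fun s i => cut_mono _ _ (BZ_lip (hy s).symm (by omega)))
    (fun a c => om G (y a) (y c)) (fun a c e => om_sub S _ _ _) m l R hm hl (kap d)
    (1 / (6 * kap d)) (1 / (44 * C)) (by linarith) (by positivity) (by positivity)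
    (fun a n => om_le S hd (nr_walk hy a n)) hR (by rw [← hn0]; exact hom) I (by
      have : (n0 : ℝ) < I.card := by exact_mod_cast hI
      rwa [show 2 * (1 / (44 * C) * (22 * C * n0)) = n0 by field_simp; ring])
  rw [← hn0] at c2
  have hnm : n ≤ m * n := Nat.le_mul_of_pos_left _ hm
  have hmn : ((m * n : ℕ) : ℤ) = (m : ℤ) * n := by push_cast; ring
  have hn' : (l : ℝ) ≤ n := by exact_mod_cast c1
  let γ : ℝ := 21 * C * n
  have hγ : 0 ≤ γ := by positivity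
  let W : Subgroup G := WW G γ (y a) ⊓ T ⊔ WW G γ (y (a + m * n)) ⊓ T
  have f1 : Finite (WW G γ (y a) ⊓ T : Subgroup G) := fin_of_le inf_le_right
  have f2 : Finite (WW G γ (y (a + m * n)) ⊓ T : Subgroup G) := fin_of_le inf_le_right
  have fW : Finite W := fin_of_le (sup_le inf_le_right inf_le_right : W ≤ T)
  have lW : lg W ≤ 44 * kap d * C * n := by
    have e := (lg_add (X := WW G γ (y a) ⊓ T) (Y := WW G γ (y (a + m * n)) ⊓ T)
      ((inf_le_right.trans (hP.ab.trans (centralizer_le inf_le_right))).trans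
        (centralizer_le_normalizer _))).2
    have := finWW S γ (y a)
    have := finWW S γ (y (a + m * n))
    have e1 : lg (WW G γ (y a) ⊓ T) ≤ _ := (lg_mono inf_le_left).trans (F3 S hd hγ _)
    have e2 : lg (WW G γ (y (a + m * n)) ⊓ T) ≤ _ := (lg_mono inf_le_left).trans (F3 S hd hγ _)
    have e3 := lg_nonneg (WW G γ (y a) ⊓ T ⊓ (WW G γ (y (a + m * n)) ⊓ T))
    have e4 : γ + 1 ≤ 22 * C * n := by
      have : (1 : ℝ) * 1 ≤ C * n := mul_le_mul (by linarith) (by linarith) zero_le_one hC0.le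
      simp only [γ]
      linarith
    have e5 := mul_le_mul_of_nonneg_left e4 (zero_le_one.trans hκ)
    change lg (WW G γ (y a) ⊓ T ⊔ WW G γ (y (a + m * n)) ⊓ T) ≤ _
    linarith
  have key : ∀ (v : V) (J : ℤ), lo + 2 ≤ J → J + (5 * n + 3) ≤ lo + 20 * n0 →
      ⁅VZ G Γ (J + (5 * n + 3)) v ⊓ T, BZ G Γ (- -J) v ⊓ N⁆ ≤ WW G γ v ⊓ T := by
    intro v J J1 J2
    refine le_inf ((commutator_mono inf_le_left inf_le_left).trans ?_)
      ((commutator_mono inf_le_right inf_le_right).trans (comm_le_left hP.nrm))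
    rw [neg_neg]
    have := lemB' S hd hb x v (j := J) (D := 5 * n + 3) (γ := γ) (by omega) (by push_cast; omega) (by
      have h1 := hΦ (J - 2) (J + (5 * n + 3 : ℕ)) (by omega) (by omega) (by push_cast; omega)
      push_cast at h1 ⊢
      have h2 : C * ((J : ℝ) + (5 * n + 3) - (J - 2) + 2 * l) ≤ C * (12 * n) :=
        mul_le_mul_of_nonneg_left (by linarith) hC0.le
      have h3 : kap d * (5 * n + 3 + 1) ≤ C * (9 * n) :=
        mul_le_mul hC (by linarith) (by positivity) hC0.le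
      simp only [γ]
      linarith)
    push_cast at this
    exact this
  have hZ : ∀ u, ∃ Z : Subgroup G, a ≤ u → u ≤ a + m * n → Z ≤ W ∧ lg Z ≤ lam d C ∧
      (∀ g : G, g • y u = y u → g ∈ normalizer (Z : Set G)) ∧
      ∀ g : G, g • y u = y u → g ∈ centralizer (Z : Set G) → g ∈ KK G Γ (y u) := by
    intro u
    by_cases hu : a ≤ u ∧ u ≤ a + m * n
    swap
    · exact ⟨⊥, fun u1 u2 => absurd ⟨u1, u2⟩ hu⟩
    obtain ⟨i, hi, hr⟩ := c4 u hu.1 hu.2
    obtain ⟨i1, i2, i3⟩ := hI' i hi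
    have hxu : Nr Γ u x (y u) := by simpa [y0] using nr_walk hy 0 u
    refine ⟨⁅VZ G Γ (i + 3) (y u), BZ G Γ i (y u)⁆, fun _ _ => ⟨?_, ?_, fun g hg =>
      (eqv_comm (eqvVZ S (i + 3)) (eqvBZ S i)).nrm hg, fun g hg hc =>
      faithZ S hd hb (y u) (by omega) (by omega) hg hc⟩⟩
    · have := hr _ (idl_comm hP W)
        (comm_cut hP (comm_le_of_cent' (inf_le_left.trans (BZ_cent (by omega) _)) inf_le_left W))
        (comm_cut hP (comm_le_of_cent' (inf_le_left.trans (BZ_cent (by omega) _)) inf_le_left W))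
        fun J J1 J2 => ⟨comm_cut hP ((key _ J (by nlinarith) (by nlinarith)).trans le_sup_left),
          comm_cut hP ((key _ J (by nlinarith) (by nlinarith)).trans le_sup_right)⟩
      refine (commutator_mono (le_cut N (VZ_lip hxu (by omega))) ?_).trans this
      rw [neg_neg]
      exact le_cut T (BZ_lip hxu.symm (by omega))
    · have := finWW S (110 * C + kap d * 4) (y u)
      have h1 := lemB' S hd hb x (y u) (j := i) (D := 3) (γ := 110 * C + kap d * 4) (by omega)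
        (by push_cast; omega) (by push_cast; linarith)
      exact (lg_mono h1).trans (F3 S hd (by positivity) _)
  choose Z hZ using hZ
  have hl0 : 0 ≤ lam d C := by unfold lam; positivity
  have hg := gamma S y hy a (m * n) Z W hl0 hZ
  have h1 : 1 + lg W ≤ (1 + 44 * kap d * C) * n := by linarith
  have h2 := mul_le_mul_of_nonneg_left h1
    (show 0 ≤ lam d C * (2 : ℝ) ^ lam d C by positivity)
  have h3 : 1 / (6 * kap d) / 2 * m * n ≤
      lam d C * (2 : ℝ) ^ lam d C * (1 + 44 * kap d * C) * n := by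
    push_cast at c3
    linarith
  exact le_of_mul_le_mul_right h3 (by linarith)

theorem prg (S : Setup G Γ) {d : ℕ} (hd : Deg Γ d) {b : ℕ} (hb : Crit G Γ b) (x : V) {lo : ℤ}
    {k : ℕ} (hlo : 0 ≤ lo) (hk : 4 ≤ k) (hhi : 2 * (lo + k) + 2 ≤ b) {γ : ℝ}
    (h1 : Ph G Γ x (lo + k) - Ph G Γ x lo + kap d * (k + 1) ≤ γ)
    (h2 : lg (WW G γ x ⊓ VZ G Γ (lo + k) x) < lg (WW G γ x ⊓ VZ G Γ lo x) + 1) :
    Prg (VZ G Γ (lo + k - 2) x) (BZ G Γ (lo + 2) x) := by
  have hn : BZ G Γ (lo + 2) x ≤ normalizer (VZ G Γ (lo + k - 2) x : Set G) := fun g hg =>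
    (eqvVZ S _).nrm (BZ_fix0 hg (by omega))
  refine ⟨hb.VZ_comm (by omega) x, hn, ?_⟩
  obtain ⟨D, rfl⟩ := Nat.exists_eq_add_of_le' hk
  have e : lo + ((D + 4 : ℕ) : ℤ) - 2 = lo + 2 + D := by push_cast; ring
  have h3 := lemB' S hd hb x x (j := lo + 2) (D := D) (γ := γ) (by omega) (by omega) (by
    have a := Ph_mono S hb x (i := lo + 2 + D) (j := lo + ((D + 4 : ℕ) : ℤ)) (by omega) (by omega)
      (by omega)
    rw [add_sub_cancel_right]
    have c : kap d * ((D : ℝ) + 1) ≤ kap d * (((D + 4 : ℕ) : ℝ) + 1) :=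
      mul_le_mul_of_nonneg_left (by push_cast; linarith) (zero_le_one.trans (one_le_kap d))
    linarith)
  rw [← e] at h3
  have h4 : WW G γ x ⊓ VZ G Γ lo x = WW G γ x ⊓ VZ G Γ (lo + ((D + 4 : ℕ) : ℤ)) x := by
    have := finWW S γ x
    have : Finite (WW G γ x ⊓ VZ G Γ (lo + ((D + 4 : ℕ) : ℤ)) x : Subgroup G) :=
      fin_of_le inf_le_left
    by_contra hne
    have := lg_gap (lt_of_le_of_ne (inf_le_inf_left _ (VZ_mono (by omega) x)) hne)
    linarith
  have h5 := le_inf h3 ((comm_le_left hn).trans (VZ_mono (j := lo + ((D + 4 : ℕ) : ℤ)) (by omega) x))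
  rw [← h4] at h5
  exact (h5.trans inf_le_right).trans (le_centralizer_iff.1 (BZ_cent le_rfl x))

theorem bound (d : ℕ) : ∃ B : ℕ, ∀ (G V : Type) [Group G] [MulAction G V] (Γ : SimpleGraph V),
    Setup G Γ → Deg Γ d → ∀ (_x : V) (b : ℕ), Crit G Γ b → b ≤ B := by
  have hκ := one_le_kap d
  obtain ⟨C, hC⟩ : ∃ C : ℝ, C = 2 * (10 * kap d) + 2 := ⟨_, rfl⟩
  have hC0 : 0 < C := by linarith
  have hε : 0 < 1 / (6 * kap d) / 2 := by positivity
  obtain ⟨m, hm⟩ := exists_nat_gt (lam d C * (2 : ℝ) ^ lam d C * (1 + 44 * kap d * C) /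
    (1 / (6 * kap d) / 2))
  have hl0 : 0 ≤ lam d C := by unfold lam; positivity
  have hm1 : 1 ≤ m := by
    have : (0 : ℝ) < m := lt_of_le_of_lt (by positivity) hm
    exact_mod_cast this
  rw [div_lt_iff₀ hε] at hm
  have hδ : 0 < 1 / (6 * kap d) * (1 / (44 * C)) := by positivity
  obtain ⟨R, hR⟩ := exists_nat_gt (60 * m ^ 2 * kap d / (1 / (6 * kap d) * (1 / (44 * C))))
  rw [div_lt_iff₀ hδ] at hR
  have hρ : 1 ≤ 20 * (m * m ^ R) := Nat.mul_pos (by norm_num) (Nat.mul_pos hm1 (pow_pos hm1 _))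
  let γ : ℕ → ℝ := fun l => C * (((20 * (m * m ^ R) * l : ℕ) : ℝ) + 2 * l) +
    kap d * (((20 * (m * m ^ R) * l : ℕ) : ℝ) + 1)
  have hγ : ∀ l, 0 ≤ γ l := fun l => by positivity
  obtain ⟨B, hB1, hB⟩ := reg_global _ hρ (10 * kap d) (by linarith) fun l => kap d * (γ l + 1)
  refine ⟨4 * B + ⌈2 * kap d⌉₊, fun G V _ _ Γ S hd x b hb => ?_⟩
  by_contra hlt
  have hκb : 2 * kap d ≤ b := (Nat.le_ceil _).trans (by exact_mod_cast (by omega))
  obtain ⟨l, w, hl, -, hw, hg, hΦ⟩ := hB (b / 4) (fun j => Ph G Γ x j)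
    (fun l j => lg (WW G (γ l) x ⊓ VZ G Γ j x)) (by omega)
    (fun i j h1 h2 => Ph_mono S hb x (by omega) (by omega) (by omega))
    (fun l j _ => ⟨lg_nonneg _,
      have := finWW S (γ l) x
      (lg_mono inf_le_left).trans (F3 S hd (hγ l) x)⟩)
    (fun l i j h1 _ =>
      have := finWW S (γ l) x
      have : Finite (WW G (γ l) x ⊓ VZ G Γ j x : Subgroup G) := fin_of_le inf_le_left
      lg_mono (inf_le_inf_left _ (VZ_mono (by omega) x)))
    (by
      have a1 := F1 S hd hb x (k := b / 4) (by omega)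
      have a2 := F0 S hd hb x (k := b) le_rfl
      rw [sub_self] at a2
      have a3 := lg_nonneg (BZ G Γ ((b / 4 : ℕ) : ℤ) x)
      have a4 := lg_nonneg (VZ G Γ 0 x)
      have a5 : (((b / 4 : ℕ) : ℝ) + 1) + ((b : ℝ) + 1) ≤ 10 * ((b / 4 : ℕ) : ℝ) := by
        exact_mod_cast (by omega)
      have a6 := mul_le_mul_of_nonneg_left a5 (zero_le_one.trans hκ)
      simp only [Ph, Nat.cast_zero]
      linarith)
  rw [← hC] at hΦ
  obtain ⟨n0, hn0⟩ : ∃ n0, n0 = m * (l * m ^ R) := ⟨_, rfl⟩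
  have e : 20 * (m * m ^ R) * l = 20 * n0 := by rw [hn0]; ring
  have hn1 : 1 ≤ n0 := hn0 ▸ Nat.mul_pos hm1 (Nat.mul_pos hl (pow_pos hm1 _))
  have hΦ' : ∀ i j : ℤ, (w : ℤ) ≤ i → i ≤ j → j ≤ w + 20 * n0 →
      Ph G Γ x j - Ph G Γ x i ≤ C * ((j : ℝ) - i + 2 * l) := fun i j h1 h2 h3 => by
    obtain ⟨i, rfl⟩ := Int.eq_ofNat_of_zero_le (show 0 ≤ i by omega)
    obtain ⟨j, rfl⟩ := Int.eq_ofNat_of_zero_le (show 0 ≤ j by omega)
    simpa using hΦ i j (by omega) (by omega) (by omega)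
  have hP := prg S hd hb x (lo := w) (k := 20 * n0) (γ := γ l) (by omega) (by omega) (by omega)
    (by
      have := hΦ' w (w + (20 * n0 : ℕ)) le_rfl (by omega) (by omega)
      simp only [γ, e]
      push_cast at this ⊢
      linarith)
    (by
      rw [e] at hg
      exact_mod_cast hg)
  have := win S hd hb x (C := C) (by linarith) (lo := w) (by omega) hm1 hl hn0 (by omega) hκb hΦ'
    (by exact_mod_cast hP) (by linarith)
  linarith

end Pool.Agent.Lib.MP_03ba20_al.W.H2
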