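import Mathlib

namespace Pool.Agent.Lib.MP_03ba20_al.W

/-- the neighbours of `v`, as a set on which the stabiliser of `v` acts. -/
def nbhd {G V : Type} [Group G] [MulAction G V] (Γ : SimpleGraph V)
    (hadj : ∀ (g : G) (u v : V), Γ.Adj u v → Γ.Adj (g • u) (g • v)) (v : V) :
    SubMulAction (MulAction.stabilizer G v) V where
  carrier := Γ.neighborSet v
  smul_mem' g u hu := by
    have h := hadj g v u hu
    rw [show (g : G) • v = v from g.2] at h
    exact h

end Pool.Agent.Lib.MP_03ba20_al.W
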