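import Pool.Agent.Lib.MP_03ba20_al.W.H2Core
import Pool.Agent.Lib.MP_03ba20_al.W.Nb

namespace Pool.Agent.Lib.MP_03ba20_al.W

open Subgroup MulAction

theorem setup_of_prim {G V : Type} [Group G] [MulAction G V] [FaithfulSMul G V] {Γ : SimpleGraph V}
    (hadj : ∀ (g : G) (u v : V), Γ.Adj u v → Γ.Adj (g • u) (g • v)) (hc : Γ.Preconnected)
    (ht : IsPretransitive G V) (hf : ∀ v : V, Finite (stabilizer G v))
    (hp : ∀ v : V, IsPreprimitive (stabilizer G v) (nbhd Γ hadj v)) : Setup G Γ where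
  adj := hadj
  conn := hc
  faith g hg := FaithfulSMul.eq_of_smul_eq_smul (α := V) fun v => by rw [hg v, one_smul]
  fin := hf
  trans := ht.exists_smul_eq
  loc v u w hu hw := by
    obtain ⟨g, hg⟩ := (hp v).toIsPretransitive.exists_smul_eq ⟨u, hu⟩ ⟨w, hw⟩
    exact ⟨g, g.2, congrArg Subtype.val hg⟩
  prim v u hu M hM t ht t1 t2 w hw := by
    let B : Set (nbhd Γ hadj v) := {y | ∃ h ∈ M, h • v = v ∧ h • u = y.1}
    have key : ∀ g : stabilizer G v, g.1 ∈ M → ∀ y ∈ B, g • y ∈ B :=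
      fun g hg y ⟨h, hh, e1, e2⟩ => ⟨g * h, mul_mem hg hh, by
        rw [mul_smul, e1]; exact g.2, by rw [mul_smul, e2]; rfl⟩
    have hB : IsBlock (stabilizer G v) B := by
      rw [isBlock_iff_smul_eq_of_mem]
      rintro g a ⟨h, hh, e1, e2⟩ ⟨h', hh', e1', e2'⟩
      have g1 : (g : G) • v = v := g.2
      have hg' : (g : G) ∈ M := by
        have := hM (h'⁻¹ * g * h) (by rw [mul_smul, mul_smul, e1, g1, inv_fix e1'])
          (by rw [mul_smul, mul_smul, inv_smul_eq_iff, e2]; exact e2'.symm)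
        simpa [mul_assoc] using mul_mem (mul_mem hh' this) (inv_mem hh)
      refine Set.Subset.antisymm ?_ fun y hy =>
        ⟨g⁻¹ • y, key _ (inv_mem hg') y hy, smul_inv_smul g y⟩
      rintro _ ⟨y, hy, rfl⟩
      exact key g hg' y hy
    rcases (hp v).isTrivialBlock_of_isBlock hB with h | h
    · have h1 : (⟨u, hu⟩ : nbhd Γ hadj v) ∈ B := ⟨1, one_mem _, one_smul _ _, one_smul _ _⟩
      exact absurd (congrArg Subtype.val (h (key ⟨t, t1⟩ ht _ h1) h1)) t2
    · have : (⟨w, hw⟩ : nbhd Γ hadj v) ∈ B := h ▸ Set.mem_univ _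
      exact this

theorem card_le_of_ball {G V : Type} [Group G] [MulAction G V] {Γ : SimpleGraph V}
    (S : Setup G Γ) {d : ℕ} (hd : Deg Γ d) {N : ℕ} {v : V} (h : BZ G Γ N v = ⊥) :
    Nat.card (stabilizer G v) ≤ ((d + 1) ^ N) ^ ((d + 1) ^ N) := by
  have := (finite_nr hd.fin v N).to_subtype
  let φ : stabilizer G v → ({w | Nr Γ N v w} → {w | Nr Γ N v w}) := fun g w =>
    ⟨g.1 • w.1, by
      have := S.nr_smul g.1 w.2
      rwa [show g.1 • v = v from g.2] at this⟩
  have hφ : Function.Injective φ := fun a b e => by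
    have : b.1⁻¹ * a.1 ∈ BZ G Γ N v := mem_BZ_nat.2 fun w hw => by
      rw [mul_smul, inv_smul_eq_iff]
      exact congrArg Subtype.val (congrFun e ⟨w, hw⟩)
    rw [h, mem_bot, inv_mul_eq_one] at this
    exact Subtype.ext this.symm
  refine (Nat.card_le_card_of_injective φ hφ).trans ?_
  have h1 : Nat.card {w | Nr Γ N v w} ≤ (d + 1) ^ N := ncard_nr hd v N
  rw [Nat.card_fun]
  exact (Nat.pow_le_pow_left h1 _).trans (Nat.pow_le_pow_right (by positivity) h1)

theorem order_bound : ∃ f : ℕ → ℕ, ∀ (G V : Type) [Group G] [MulAction G V] [FaithfulSMul G V]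
    (Γ : SimpleGraph V) (hadj : ∀ (g : G) (u v : V), Γ.Adj u v → Γ.Adj (g • u) (g • v)) (d : ℕ),
    Γ.Connected → (∀ v : V, (Γ.neighborSet v).encard = d) → IsPretransitive G V →
    (∀ v : V, Finite (stabilizer G v)) →
    (∀ v : V, IsPreprimitive (stabilizer G v) (nbhd Γ hadj v)) →
    ∀ v : V, Nat.card (stabilizer G v) ≤ f d := by
  choose B hB using H2.bound
  refine ⟨fun d => ((d + 1) ^ (⌈kap d * (B d + 1)⌉₊ + 2)) ^ ((d + 1) ^ (⌈kap d * (B d + 1)⌉₊ + 2)),
    fun G V _ _ _ Γ hadj d hc hd ht hf hp v => ?_⟩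
  have S := setup_of_prim hadj hc.preconnected ht hf hp
  by_cases h2 : 2 ≤ d
  · have hD : Deg Γ d := ⟨h2, fun w => by rw [Set.ncard_def, hd w]; rfl⟩
    exact card_le_of_ball S hD (BZ_eq_bot_of_bound S hD (hB d G V Γ S hD v) (by omega)
      (by push_cast; linarith [Nat.le_ceil (kap d * (B d + 1))]) v)
  · have hs : ∀ w, (Γ.neighborSet w).Subsingleton := fun w =>
      Set.encard_le_one_iff_subsingleton.1 (by rw [hd w]; exact_mod_cast (by omega))
    have e : stabilizer G v = ⊥ := (eq_bot_iff_forall _).2 fun g hg => S.faith g fun w => by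
      obtain ⟨n, hn⟩ := exists_nr S.conn v w
      induction hn with
      | refl => exact hg
      | step _ h ih =>
        have := hadj g _ _ h
        rw [ih hg] at this
        exact hs _ this h
    rw [e, card_bot]
    exact Nat.one_le_pow _ _ (by positivity)

end Pool.Agent.Lib.MP_03ba20_al.W
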