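import Pool.Agent.Lib.MP_03ba20_al.W.Defs
import Pool.Agent.Lib.MP_03ba20_al.WReg

/-! Regular windows (section 5 of the plan): the frozen form of `reg_block`. -/
namespace Pool.Agent.Lib.MP_03ba20_al.W

open Subgroup MulAction

theorem REG (ρ : ℕ) (hρ : 1 ≤ ρ) (C : ℝ) (hC : 0 ≤ C) (M : ℕ → ℝ) :
    ∃ B : ℕ, 1 ≤ B ∧ ∀ (Φ : ℕ → ℝ) (g : ℕ → ℕ → ℝ), Monotone Φ → (∀ l, Monotone (g l)) →
      (∀ l i, 0 ≤ g l i ∧ g l i ≤ M l) → ∀ s : ℕ, Φ (s + B) - Φ s ≤ C * B →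
      ∃ l w : ℕ, 1 ≤ l ∧ s ≤ w ∧ w + ρ * l ≤ s + B ∧ g l (w + ρ * l) < g l w + 1 ∧
        ∀ i i' : ℕ, w ≤ i → i ≤ i' → i' ≤ w + ρ * l →
          Φ i' - Φ i ≤ (C + 2) * ((i' : ℝ) - i + 2 * l) := by
  obtain ⟨B, hB, h⟩ := Pool.Agent.Lib.MP_03ba20_al.reg_block ρ hρ C hC M
  exact ⟨B, hB, fun Φ g hΦ hg hM s hs =>
    h Φ g s (fun _ _ _ b _ => hΦ b) (fun l j _ _ => hM l j) (fun l _ _ _ b _ => hg l b) hs⟩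

end Pool.Agent.Lib.MP_03ba20_al.W
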