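import Pool.Agent.Lib.MP_03ba20_al.W.Defs

/-! Choice of the scale and of the block. -/

namespace Pool.Agent.Lib.MP_03ba20_al.W

open Subgroup MulAction

namespace Scale

open Finset

theorem chain1 {F : ℕ → ℕ → ℝ} (hF : ∀ a b c, F a c ≤ F a b + F b c) (p : ℕ → ℕ) (k : ℕ) :
    F (p 0) (p (k + 1)) ≤ ∑ i ∈ range (k + 1), F (p i) (p (i + 1)) := by
  induction k with
  | zero => simp
  | succ k ih => rw [sum_range_succ]; linarith [hF (p 0) (p (k + 1)) (p (k + 1 + 1))]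

theorem chain0 {F : ℕ → ℕ → ℝ} (h0 : ∀ a, F a a = 0) (hF : ∀ a b c, F a c ≤ F a b + F b c)
    (p : ℕ → ℕ) (k : ℕ) : F (p 0) (p k) ≤ ∑ i ∈ range k, F (p i) (p (i + 1)) := by
  cases k with
  | zero => simp [h0]
  | succ k => exact chain1 hF p k

theorem chain2 {F : ℕ → ℕ → ℝ} (h0 : ∀ a, F a a = 0) (hF : ∀ a b c, F a c ≤ F a b + F b c)
    (p : ℕ → ℕ) {e k : ℕ} (h : e ≤ k) :
    F (p 0) (p e) + F (p e) (p k) ≤ ∑ i ∈ range k, F (p i) (p (i + 1)) := by
  obtain ⟨k, rfl⟩ := Nat.exists_eq_add_of_le h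
  rw [sum_range_add]
  exact add_le_add (chain0 h0 hF p e) (chain0 h0 hF (fun i => p (e + i)) k)

theorem regroup (f : ℕ → ℝ) (m k : ℕ) :
    ∑ j ∈ range (k * m), f j = ∑ i ∈ range k, ∑ e ∈ range m, f (i * m + e) := by
  induction k with
  | zero => simp
  | succ k ih => rw [Nat.succ_mul, sum_range_add, ih, sum_range_succ]

end Scale

open Finset in
theorem SS (Ψ ω : ℕ → ℕ → ℝ) (hΨ0 : ∀ a b, 0 ≤ Ψ a b) (hΨr : ∀ a, Ψ a a = 0)
    (hΨ : ∀ a b c, Ψ a c ≤ Ψ a b + Ψ b c) (hω : ∀ a b c, ω a c ≤ ω a b + ω b c)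
    (m l R : ℕ) (hm : 1 ≤ m) (hl : 1 ≤ l) (κ ε η θ : ℝ) (hκ : 0 ≤ κ) (hε : 0 < ε) (hη : 0 < η)
    (hωκ : ∀ a n, ω a (a + n) ≤ κ * n) (hΨl : ∀ a, Ψ a (a + l) ≤ θ * l)
    (hR : 2 * κ * θ < ε * η * R) (h0 : ε * (l * m ^ R : ℕ) ≤ ω 0 (l * m ^ R)) :
    ∃ r a : ℕ, a + l * m ^ (r + 1) ≤ l * m ^ R ∧
      ε / 2 * (l * m ^ (r + 1) : ℕ) ≤ ω a (a + l * m ^ (r + 1)) ∧
      ∀ e ≤ m, Ψ a (a + e * (l * m ^ r)) + Ψ (a + e * (l * m ^ r)) (a + l * m ^ (r + 1)) -
        Ψ a (a + l * m ^ (r + 1)) ≤ η * (l * m ^ (r + 1) : ℕ) := by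
  by_contra hc
  let S : ℕ → ℝ := fun r => ∑ i ∈ range (m ^ (R - r)), Ψ (i * (l * m ^ r)) ((i + 1) * (l * m ^ r))
  have key : ∀ r ∈ range R, ε / 2 * η * (l * m ^ R : ℕ) ≤ κ * (S r - S (r + 1)) := fun r hr => by
    have hr := mem_range.1 hr
    obtain ⟨q, rfl⟩ : ∃ q, R = r + 1 + q := Nat.exists_eq_add_of_le hr
    have e1 : r + 1 + q - r = q + 1 := by omega
    have e2 : r + 1 + q - (r + 1) = q := by omega
    obtain ⟨k, hk⟩ : ∃ k, m ^ q = k + 1 := Nat.exists_eq_succ_of_ne_zero (by positivity)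
    have e3 : l * m ^ (r + 1 + q) = (k + 1) * (l * m ^ (r + 1)) := by rw [← hk]; ring
    have h1 := Scale.chain1 hω (fun i => i * (l * m ^ (r + 1))) k
    simp only [zero_mul, ← e3] at h1
    have h2 : ∀ i ∈ range (k + 1),
        η * ω (i * (l * m ^ (r + 1))) ((i + 1) * (l * m ^ (r + 1))) ≤
          ε / 2 * η * (l * m ^ (r + 1) : ℕ) +
          κ * (∑ e ∈ range m, Ψ ((i * m + e) * (l * m ^ r)) ((i * m + e + 1) * (l * m ^ r)) -
            Ψ (i * (l * m ^ (r + 1))) ((i + 1) * (l * m ^ (r + 1)))) := fun i hi => by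
      have hi := mem_range.1 hi
      have a0 : (i + 1) * (l * m ^ (r + 1)) = i * (l * m ^ (r + 1)) + l * m ^ (r + 1) := by ring
      have a1 : ∀ e, (i * m + e) * (l * m ^ r) = i * (l * m ^ (r + 1)) + e * (l * m ^ r) :=
        fun e => by ring
      have a2 : m * (l * m ^ r) = l * m ^ (r + 1) := by ring
      have a3 := fun e (he : e ≤ m) =>
        Scale.chain2 hΨr hΨ (fun e => (i * m + e) * (l * m ^ r)) he
      simp only [← add_assoc] at a3
      rw [a0]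
      generalize (∑ e ∈ range m,
        Ψ ((i * m + e) * (l * m ^ r)) ((i * m + e + 1) * (l * m ^ r))) = T at a3 ⊢
      have a6 : i * m * (l * m ^ r) = i * (l * m ^ (r + 1)) := by ring
      simp only [a1, a2, a6, zero_mul, add_zero] at a3
      have a4 := a3 0 (Nat.zero_le _)
      simp only [zero_mul, add_zero, hΨr, zero_add] at a4
      have a5 : (0 : ℝ) ≤ (l * m ^ (r + 1) : ℕ) := by positivity
      by_cases h : ε / 2 * (l * m ^ (r + 1) : ℕ) ≤
          ω (i * (l * m ^ (r + 1))) (i * (l * m ^ (r + 1)) + l * m ^ (r + 1))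
      · have : ∃ e ≤ m, η * (l * m ^ (r + 1) : ℕ) <
            Ψ (i * (l * m ^ (r + 1))) (i * (l * m ^ (r + 1)) + e * (l * m ^ r)) +
            Ψ (i * (l * m ^ (r + 1)) + e * (l * m ^ r)) (i * (l * m ^ (r + 1)) + l * m ^ (r + 1)) -
            Ψ (i * (l * m ^ (r + 1))) (i * (l * m ^ (r + 1)) + l * m ^ (r + 1)) := by
          by_contra hn
          refine hc ⟨r, i * (l * m ^ (r + 1)), ?_, h, fun e he =>
            le_of_not_gt fun h' => hn ⟨e, he, h'⟩⟩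
          rw [← a0, e3]
          exact Nat.mul_le_mul_right _ hi
        obtain ⟨e, he, h'⟩ := this
        have b1 := mul_le_mul_of_nonneg_left (hωκ (i * (l * m ^ (r + 1))) (l * m ^ (r + 1))) hη.le
        have b2 := mul_le_mul_of_nonneg_left (h'.le.trans (sub_le_sub_right (a3 e he) _)) hκ
        have b3 : 0 ≤ ε / 2 * η * (l * m ^ (r + 1) : ℕ) := by positivity
        linarith
      · have b1 := mul_le_mul_of_nonneg_left (not_le.1 h).le hη.le
        have b2 := mul_nonneg hκ (sub_nonneg.2 a4)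
        linarith
    have h3 := sum_le_sum h2
    rw [← mul_sum, sum_add_distrib, sum_const, ← mul_sum, sum_sub_distrib, card_range,
      nsmul_eq_mul, ← Scale.regroup fun j => Ψ (j * (l * m ^ r)) ((j + 1) * (l * m ^ r))] at h3
    have h4 : S r = ∑ j ∈ range ((k + 1) * m), Ψ (j * (l * m ^ r)) ((j + 1) * (l * m ^ r)) := by
      simp only [S, e1, pow_succ m q, hk]
    have h5 : S (r + 1) = ∑ i ∈ range (k + 1),
        Ψ (i * (l * m ^ (r + 1))) ((i + 1) * (l * m ^ (r + 1))) := by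
      simp only [S, e2, hk]
    have h6 := mul_le_mul_of_nonneg_left (h0.trans h1) hη.le
    have h7 : ((l * m ^ (r + 1 + q) : ℕ) : ℝ) = ((k + 1 : ℕ) : ℝ) * (l * m ^ (r + 1) : ℕ) := by
      exact_mod_cast e3
    rw [h4, h5]
    rw [h7] at h6 ⊢
    linarith
  have h1 := sum_le_sum key
  rw [sum_const, ← mul_sum, sum_range_sub', card_range, nsmul_eq_mul] at h1
  have h2 : 0 ≤ S R := sum_nonneg fun _ _ => hΨ0 _ _
  have h3 : S 0 ≤ θ * (l * m ^ R : ℕ) := by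
    have : S 0 ≤ ∑ _i ∈ range (m ^ R), θ * l := sum_le_sum fun i _ => by
      simpa only [pow_zero, mul_one, add_mul, one_mul] using hΨl (i * l)
    rw [sum_const, card_range, nsmul_eq_mul] at this
    push_cast at this ⊢
    linarith
  have h4 : (0 : ℝ) < (l * m ^ R : ℕ) := by positivity
  have h5 := mul_le_mul_of_nonneg_left (show S 0 - S R ≤ θ * (l * m ^ R : ℕ) by linarith) hκ
  have h6 := mul_lt_mul_of_pos_right hR h4
  linarith

end Pool.Agent.Lib.MP_03ba20_al.W
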